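import Pool.Agent.TH42.NC.Count

set_option autoImplicit false

/-!
# Counting integral points near a normal crossings divisor of a toric variety, in Cox coordinates

The local packing bounds are those of `Pool.Agent.TH42.NC` (the case of the projective space); here
the boxes have different sides `b i` in the different coordinates.
-/

namespace Pool.Agent.K1H85.TV

open Finset Pool.Agent.TH42.NC

/-- the point is outside of the irrelevant locus of the set of (maximal) cones `Sg` -/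
def Good {n : ℕ} (Sg : Finset (Finset (Fin n))) {K : Type} [Zero K] (z : Fin n → K) : Prop :=
  ∃ s ∈ Sg, ∀ i, i ∉ s → z i ≠ 0

/-- strict normal crossings condition over `R` -/
def SNCT {n q : ℕ} (Sg : Finset (Finset (Fin n))) (F : Fin q → MvPolynomial (Fin n) ℤ) (R : Type)
    [Field R] : Prop :=
  ∀ z : Fin n → R, Good Sg z →
    LinearIndependent R (fun j : {j : Fin q // MvPolynomial.aeval z (F j) = 0} =>
      fun i => MvPolynomial.aeval z (MvPolynomial.pderiv i (F j.1)))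

/-- the Cox coordinates of a rational point -/
def CoxPrim {n : ℕ} (Sg : Finset (Finset (Fin n))) (x : Fin n → ℤ) : Prop :=
  ∀ p : ℕ, p.Prime → ∃ s ∈ Sg, ∀ i, i ∉ s → ¬ (p : ℤ) ∣ x i

/-- `b` is in the torus `Hom(Pic, ℝ_{>0})` -/
def Tor {n d : ℕ} (v : Fin n → Fin d → ℤ) (b : Fin n → ℝ) : Prop :=
  (∀ i, 0 < b i) ∧ ∀ k, ∏ i, b i ^ v i k = 1

/-- all monomials of `G` have the class of `a` -/
def Homog {n d : ℕ} (v : Fin n → Fin d → ℤ) (G : MvPolynomial (Fin n) ℤ) (a : Fin n → ℤ) : Prop :=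
  ∀ m ∈ G.support, ∃ u : Fin d → ℤ, ∀ i, (m i : ℤ) = a i + ∑ k, u k * v i k

section

variable {n d q : ℕ} {v : Fin n → Fin d → ℤ} {Sg : Finset (Finset (Fin n))}

theorem aeval_scale {G : MvPolynomial (Fin n) ℤ} {a : Fin n → ℤ} (hG : Homog v G a)
    {b : Fin n → ℝ} (hb : Tor v b) (z : Fin n → ℝ) :
    MvPolynomial.aeval (fun i => b i * z i) G = (∏ i, b i ^ a i) * MvPolynomial.aeval z G := by
  rw [MvPolynomial.aeval_def, MvPolynomial.aeval_def, MvPolynomial.eval₂_eq', MvPolynomial.eval₂_eq',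
    Finset.mul_sum]
  refine Finset.sum_congr rfl fun m hm => ?_
  obtain ⟨u, hu⟩ := hG m hm
  have h1 : ∏ i, b i ^ m i = ∏ i, b i ^ a i := by
    have h2 : ∀ i, b i ^ m i = b i ^ a i * ∏ k, (b i ^ v i k) ^ u k := by
      intro i
      have hbi := (hb.1 i).ne'
      rw [← zpow_natCast, hu i, zpow_add₀ hbi]
      congr 1
      rw [← Finset.prod_congr rfl fun k _ => zpow_mul (b i) (v i k) (u k)]
      have h3 : ∀ (T : Finset (Fin d)), b i ^ (∑ k ∈ T, u k * v i k) =
          ∏ k ∈ T, b i ^ (v i k * u k) := by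
        intro T
        induction T using Finset.induction_on with
        | empty => simp
        | insert k T hk ih =>
          rw [Finset.sum_insert hk, Finset.prod_insert hk, zpow_add₀ hbi, ih, mul_comm (u k)]
      exact h3 _
    rw [Finset.prod_congr rfl fun i _ => h2 i, Finset.prod_mul_distrib]
    have h3 : ∏ i, ∏ k, (b i ^ v i k) ^ u k = 1 := by
      rw [Finset.prod_comm]
      refine Finset.prod_eq_one fun k _ => ?_
      rw [Finset.prod_zpow, hb.2 k, one_zpow]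
    rw [h3, mul_one]
  simp only [mul_pow]
  rw [Finset.prod_mul_distrib, h1]
  ring

theorem snct_of {R : Type} [NontriviallyNormedField R] (F : Fin q → MvPolynomial (Fin n) ℤ)
    (h : SNCT Sg F R) (z : Fin n → R) (hz : Good Sg z) :
    SNC (fun j => (F j).map (Int.castRingHom R)) z := by
  have h1 := h z hz
  unfold SNC
  have h2 : ∀ j, MvPolynomial.eval z ((F j).map (Int.castRingHom R)) =
      MvPolynomial.aeval z (F j) := fun j => eval_map' _ _
  have h3 : ∀ j i, MvPolynomial.eval z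
      (MvPolynomial.pderiv i ((F j).map (Int.castRingHom R))) =
      MvPolynomial.aeval z (MvPolynomial.pderiv i (F j)) := by
    intro j i
    rw [MvPolynomial.pderiv_map, eval_map']
  simp only [h3]
  refine (linearIndependent_equiv' (Equiv.subtypeEquivRight fun j => by rw [h2 j]) ?_).mpr h1
  rfl

/-- the `p`-adic count -/
theorem padic_count (F : Fin q → MvPolynomial (Fin n) ℤ) (p : ℕ) [hp : Fact p.Prime]
    (hS : SNCT Sg F ℚ_[p]) : ∃ C : ℝ, 0 ≤ C ∧ ∀ (A : Fin q → ℕ) (a : ℕ), (∀ j, A j ≤ a) →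
      ∀ X : Finset (Fin n → ℤ),
        (∀ x ∈ X, CoxPrim Sg x ∧ ∀ j, (p : ℤ) ^ A j ∣ MvPolynomial.eval x (F j)) →
        (∀ x ∈ X, ∀ x' ∈ X, x ≠ x' → ∃ i, ¬ (p : ℤ) ^ a ∣ x i - x' i) →
        (X.card : ℝ) ≤ C * (((p : ℝ) ^ a) ^ n / ∏ j, (p : ℝ) ^ A j) := by
  classical
  have hp1 : (1 : ℝ) < p := by exact_mod_cast hp.out.one_lt
  have hp0 : (0 : ℝ) < p := by linarith
  have hK : IsCompact (Metric.closedBall (0 : Fin n → ℚ_[p]) 1 ∩
      ⋃ s ∈ Sg, {z : Fin n → ℚ_[p] | ∀ i, i ∉ s → 1 ≤ ‖z i‖}) := by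
    apply (isCompact_closedBall _ _).inter_right
    apply isClosed_biUnion_finset
    intro s _
    have : {z : Fin n → ℚ_[p] | ∀ i, i ∉ s → 1 ≤ ‖z i‖} =
        ⋂ i, ⋂ (_ : i ∉ s), {z : Fin n → ℚ_[p] | 1 ≤ ‖z i‖} := by
      ext z; simp
    rw [this]
    exact isClosed_iInter fun i => isClosed_iInter fun _ =>
      isClosed_le continuous_const (continuous_apply i).norm
  obtain ⟨C, hC, hb⟩ := compact_bd (𝕜 := ℚ_[p]) (C0 := p) hp1.le (packs_padic p)
    (fun j => (F j).map (Int.castRingHom ℚ_[p])) 1 le_rfl _ hK (fun z hz => by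
      obtain ⟨_, hz2⟩ := hz
      rw [Set.mem_iUnion₂] at hz2
      obtain ⟨s, hs, hz3⟩ := hz2
      refine snct_of F hS z ⟨s, hs, fun i hi h0 => ?_⟩
      have h1 := hz3 i hi
      rw [h0, norm_zero] at h1
      norm_num at h1)
  refine ⟨C, hC, ?_⟩
  intro A a hA X hX hsep
  have hinj : Function.Injective (fun (x : Fin n → ℤ) => fun i => (x i : ℚ_[p])) := by
    intro x y h
    ext i
    have h2 : (x i : ℚ_[p]) = y i := congrFun h i
    exact_mod_cast h2
  have h1 := hb (fun j => ((p : ℝ) ^ A j)⁻¹) ((p : ℝ) ^ a)⁻¹ (by positivity)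
    (inv_le_one_of_one_le₀ (one_le_pow₀ hp1.le)) (fun j => by
      apply inv_anti₀ (by positivity)
      exact pow_le_pow_right₀ hp1.le (hA j))
    (X.image (fun (x : Fin n → ℤ) => fun i => (x i : ℚ_[p]))) (by
      intro z hz
      obtain ⟨x, hx, rfl⟩ := Finset.mem_image.mp hz
      obtain ⟨hprim, hdvd⟩ := hX x hx
      constructor
      · constructor
        · rw [mem_closedBall_zero_iff, pi_norm_le_iff_of_nonneg zero_le_one]
          intro i
          exact Padic.norm_int_le_one _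
        · obtain ⟨s, hs, hi⟩ := hprim p hp.out
          rw [Set.mem_iUnion₂]
          refine ⟨s, hs, fun i his => ?_⟩
          by_contra hlt
          push Not at hlt
          exact hi i his (Padic.norm_intCast_lt_one_iff.mp hlt)
      · intro j
        rw [eval_map', aeval_int, one_mul]
        have h2 := (Padic.norm_int_le_pow_iff_dvd (p := p) (MvPolynomial.eval x (F j)) (A j)).mpr
          (by exact_mod_cast hdvd j)
        rwa [zpow_neg, zpow_natCast] at h2) (by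
      intro z hz z' hz' hne
      obtain ⟨x, hx, rfl⟩ := Finset.mem_image.mp hz
      obtain ⟨x', hx', rfl⟩ := Finset.mem_image.mp hz'
      have hxx : x ≠ x' := by rintro rfl; exact hne rfl
      obtain ⟨i, hi⟩ := hsep x hx x' hx' hxx
      have h2 : ¬ ‖((x i - x' i : ℤ) : ℚ_[p])‖ ≤ (p : ℝ) ^ (-(a : ℤ)) := by
        rw [Padic.norm_int_le_pow_iff_dvd]
        exact_mod_cast hi
      push Not at h2
      rw [zpow_neg, zpow_natCast] at h2
      refine h2.le.trans ?_
      have h3 := norm_le_pi_norm ((fun i => (x i : ℚ_[p])) - (fun i => (x' i : ℚ_[p]))) i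
      simpa using h3)
  rw [Finset.card_image_of_injective _ hinj] at h1
  refine h1.trans (le_of_eq ?_)
  rw [Finset.prod_inv_distrib, inv_pow, div_inv_eq_mul, mul_comm (∏ j, (p : ℝ) ^ A j)⁻¹,
    ← div_eq_mul_inv]

/-- points of a lattice coset in a box -/
theorem box_card (b : Fin n → ℝ) (R : ℝ) (M : ℕ) (hM : 1 ≤ M) (hR : 0 < R) (hb : ∀ i, R ≤ b i)
    (X : Finset (Fin n → ℤ)) (hX : ∀ x ∈ X, ∀ x' ∈ X, ∀ i, |(x i : ℝ) - x' i| ≤ M / R * b i)
    (hc : ∀ x ∈ X, ∀ x' ∈ X, ∀ i, (M : ℤ) ∣ x i - x' i) :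
    (X.card : ℝ) ≤ 3 ^ n * ∏ i, (b i / R) := by
  classical
  have hM1 : (1 : ℝ) ≤ M := by exact_mod_cast hM
  have hM0 : (0 : ℝ) < M := by linarith
  have hbR : ∀ i, 1 ≤ b i / R := fun i => (one_le_div hR).mpr (hb i)
  rcases X.eq_empty_or_nonempty with he | ⟨x0, hx0⟩
  · rw [he, Finset.card_empty, Nat.cast_zero]
    have : 0 ≤ ∏ i, (b i / R) := Finset.prod_nonneg fun i _ => by linarith [hbR i]
    positivity
  have hcard : X.card ≤ (Fintype.piFinset
      (fun i => Finset.Icc (-(⌊b i / R⌋₊ : ℤ)) (⌊b i / R⌋₊ : ℤ))).card := by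
    apply Finset.card_le_card_of_injOn (fun x i => (x i - x0 i) / (M : ℤ))
    · intro x hx
      rw [Finset.mem_coe, Fintype.mem_piFinset]
      intro i
      obtain ⟨t, ht⟩ := hc x hx x0 hx0 i
      have h1 : (x i - x0 i) / (M : ℤ) = t := by
        rw [ht]
        exact Int.mul_ediv_cancel_left t (by exact_mod_cast hM0.ne')
      have h2 := hX x hx x0 hx0 i
      have h3 : (x i : ℝ) - x0 i = M * t := by
        have : ((x i - x0 i : ℤ) : ℝ) = ((M * t : ℤ) : ℝ) := by rw [ht]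
        push_cast at this
        exact this
      rw [h3, abs_mul, abs_of_pos hM0] at h2
      have h4 : |(t : ℝ)| ≤ b i / R := by
        have h5 : (M : ℝ) * |(t : ℝ)| ≤ M * (b i / R) := by
          refine h2.trans (le_of_eq ?_)
          ring
        exact le_of_mul_le_mul_left h5 hM0
      have h5 : (t.natAbs : ℝ) ≤ b i / R := by
        rw [Nat.cast_natAbs]
        push_cast
        exact h4
      have h6 : t.natAbs ≤ ⌊b i / R⌋₊ := Nat.le_floor h5
      show (x i - x0 i) / (M : ℤ) ∈ _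
      rw [h1, Finset.mem_Icc]
      omega
    · intro x hx x' hx' h
      ext i
      have h1 := congrFun h i
      obtain ⟨t, ht⟩ := hc x hx x0 hx0 i
      obtain ⟨t', ht'⟩ := hc x' hx' x0 hx0 i
      have hMz : (M : ℤ) ≠ 0 := by exact_mod_cast hM0.ne'
      have h2 : (x i - x0 i) / (M : ℤ) = (x' i - x0 i) / (M : ℤ) := h1
      rw [ht, ht', Int.mul_ediv_cancel_left t hMz, Int.mul_ediv_cancel_left t' hMz] at h2
      rw [h2] at ht
      linarith
  have h1 : (((Fintype.piFinset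
      (fun i => Finset.Icc (-(⌊b i / R⌋₊ : ℤ)) (⌊b i / R⌋₊ : ℤ))).card : ℕ) : ℝ) ≤
      ∏ i, (3 * (b i / R)) := by
    rw [Fintype.card_piFinset]
    push_cast
    apply Finset.prod_le_prod (fun _ _ => by positivity)
    intro i _
    rw [Int.card_Icc]
    have h2 : ((⌊b i / R⌋₊ : ℤ) + 1 - -(⌊b i / R⌋₊ : ℤ)).toNat = 2 * ⌊b i / R⌋₊ + 1 := by omega
    rw [h2]
    push_cast
    have h3 := Nat.floor_le (by linarith [hbR i] : 0 ≤ b i / R)
    linarith [hbR i]
  calc (X.card : ℝ) ≤ _ := by exact_mod_cast hcard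
    _ ≤ _ := h1
    _ = _ := by rw [Finset.prod_mul_distrib, Finset.prod_const, Finset.card_univ, Fintype.card_fin]

/-- the archimedean count -/
theorem arch_count (F : Fin q → MvPolynomial (Fin n) ℤ) (a : Fin q → Fin n → ℤ)
    (hF : ∀ j, Homog v (F j) (a j)) (hS : SNCT Sg F ℝ) (c : ℝ) (hc : 1 ≤ c) :
    ∃ C : ℝ, 0 ≤ C ∧ ∀ (b : Fin n → ℝ) (R : ℝ) (e : Fin q → ℝ) (M : ℕ), Tor v b → (∀ i, R ≤ b i) →
      (∀ j, 0 < e j) → 1 ≤ M → (M : ℝ) ≤ R →
      (∀ j, (M : ℝ) ≤ R * e j) → ∀ X : Finset (Fin n → ℤ),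
        (∀ x ∈ X, (∀ i, |(x i : ℝ)| ≤ 2 * b i) ∧ (∃ s ∈ Sg, ∀ i, i ∉ s → b i / 2 ≤ |(x i : ℝ)|) ∧
          ∀ j, |((MvPolynomial.eval x (F j) : ℤ) : ℝ)| ≤ c * e j * ∏ i, b i ^ a j i) →
        (∀ x ∈ X, ∀ x' ∈ X, ∀ i, (M : ℤ) ∣ x i - x' i) →
        (X.card : ℝ) ≤ C * ((∏ j, e j) * ∏ i, (b i / M)) := by
  classical
  have hKc : IsCompact (Metric.closedBall (0 : Fin n → ℝ) 2 ∩
      ⋃ s ∈ Sg, {z : Fin n → ℝ | ∀ i, i ∉ s → 1 / 2 ≤ ‖z i‖}) := by
    apply (isCompact_closedBall _ _).inter_right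
    apply isClosed_biUnion_finset
    intro s _
    have : {z : Fin n → ℝ | ∀ i, i ∉ s → 1 / 2 ≤ ‖z i‖} =
        ⋂ i, ⋂ (_ : i ∉ s), {z : Fin n → ℝ | 1 / 2 ≤ ‖z i‖} := by
      ext z; simp
    rw [this]
    exact isClosed_iInter fun i => isClosed_iInter fun _ =>
      isClosed_le continuous_const (continuous_apply i).norm
  obtain ⟨C, hC, hb⟩ := compact_bd (𝕜 := ℝ) (C0 := 5) (by norm_num) packs_real
    (fun j => (F j).map (Int.castRingHom ℝ)) c hc _ hKc (fun z hz => by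
      obtain ⟨_, hz2⟩ := hz
      rw [Set.mem_iUnion₂] at hz2
      obtain ⟨s, hs, hz3⟩ := hz2
      refine snct_of F hS z ⟨s, hs, fun i hi h0 => ?_⟩
      have h1 := hz3 i hi
      rw [h0, norm_zero] at h1
      norm_num at h1)
  refine ⟨6 ^ n * C, by positivity, ?_⟩
  intro b R e M hbT hRb he hM hMR hMe X hX hcong
  have hM1 : (1 : ℝ) ≤ M := by exact_mod_cast hM
  have hM0 : (0 : ℝ) < M := by linarith
  have hR0 : 0 < R := by linarith
  have hb0 : ∀ i, 0 < b i := hbT.1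
  have hepos : 0 ≤ ∏ j, e j := Finset.prod_nonneg fun j _ => (he j).le
  set h : ℝ := M / R with hh
  have hh0 : 0 < h := by positivity
  -- cells
  let g : (Fin n → ℤ) → (Fin n → ℤ) := fun x i => ⌊(x i : ℝ) / b i / h⌋
  have hcell : ∀ x x' : Fin n → ℤ, ∀ i, g x i = g x' i → |(x i : ℝ) / b i - x' i / b i| < h := by
    intro x x' i hxx
    have h1 := Int.abs_sub_lt_one_of_floor_eq_floor hxx
    rw [← sub_div, abs_div, abs_of_pos hh0, div_lt_one hh0] at h1
    exact h1
  have hsep : ∀ x x' : Fin n → ℤ, ∀ i, g x i ≠ g x' i → (2 : ℤ) ∣ g x i - g x' i →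
      h ≤ |(x i : ℝ) / b i - x' i / b i| := by
    intro x x' i hne h2
    have h3 : 2 ≤ |g x i - g x' i| := Int.le_of_dvd (abs_pos.mpr (sub_ne_zero.mpr hne))
      ((dvd_abs _ _).mpr h2)
    have h4 : (2 : ℝ) ≤ |(g x i : ℝ) - g x' i| := by exact_mod_cast h3
    have h5 : |((g x i : ℝ) - g x' i) - ((x i : ℝ) / b i / h - x' i / b i / h)| ≤ 1 := by
      have e1 : (g x i : ℝ) ≤ (x i : ℝ) / b i / h := Int.floor_le _
      have e2 : (x i : ℝ) / b i / h < g x i + 1 := Int.lt_floor_add_one _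
      have e3 : (g x' i : ℝ) ≤ (x' i : ℝ) / b i / h := Int.floor_le _
      have e4 : (x' i : ℝ) / b i / h < g x' i + 1 := Int.lt_floor_add_one _
      rw [abs_le]
      constructor <;> linarith
    have h6 : 1 ≤ |(x i : ℝ) / b i / h - x' i / b i / h| := by
      have := abs_sub_abs_le_abs_sub ((g x i : ℝ) - g x' i) ((x i : ℝ) / b i / h - x' i / b i / h)
      linarith
    rw [← sub_div, abs_div, abs_of_pos hh0, le_div_iff₀ hh0] at h6
    linarith
  -- the fibres
  have hfib : ∀ y ∈ X.image g, (((X.filter (fun x => g x = y)).card : ℕ) : ℝ) ≤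
      3 ^ n * ∏ i, (b i / R) := by
    intro y _
    apply box_card b R M hM hR0 hRb
    · intro x hx x' hx' i
      have h1 := (Finset.mem_filter.mp hx).2
      have h2 := (Finset.mem_filter.mp hx').2
      have h3 := hcell x x' i (congrFun (h1.trans h2.symm) i)
      rw [← sub_div, abs_div, abs_of_pos (hb0 i), div_lt_iff₀ (hb0 i)] at h3
      exact h3.le
    · intro x hx x' hx' i
      exact hcong x (Finset.mem_filter.mp hx).1 x' (Finset.mem_filter.mp hx').1 i
  -- the number of cells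
  obtain ⟨T, hTX, hTc, hTi⟩ := exists_reps g X
  have hT : (T.card : ℝ) ≤ 2 ^ n * (C * ((∏ j, e j) / h ^ n)) := by
    let r : (Fin n → ℤ) → (Fin n → ZMod 2) := fun x i => (g x i : ZMod 2)
    have hpar : ∀ y : Fin n → ZMod 2, (((T.filter (fun x => r x = y)).card : ℕ) : ℝ) ≤
        C * ((∏ j, e j) / h ^ n) := by
      intro y
      have hinj : Function.Injective (fun (x : Fin n → ℤ) => fun i => (x i : ℝ) / b i) := by
        intro x x' hxx
        ext i
        have h1 := congrFun hxx i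
        have h2 : (x i : ℝ) = x' i := by
          have h3 : (x i : ℝ) / b i = x' i / b i := h1
          rw [div_eq_div_iff (hb0 i).ne' (hb0 i).ne'] at h3
          exact mul_right_cancel₀ (hb0 i).ne' h3
        exact_mod_cast h2
      have h1 := hb e h hh0 ((div_le_one hR0).mpr hMR) (fun j => by
          rw [hh, div_le_iff₀ hR0]
          linarith [hMe j])
        ((T.filter (fun x => r x = y)).image (fun (x : Fin n → ℤ) => fun i => (x i : ℝ) / b i)) (by
          intro z hz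
          obtain ⟨x, hx, rfl⟩ := Finset.mem_image.mp hz
          obtain ⟨hx1, ⟨s, hs, hx2⟩, hx3⟩ := hX x (hTX (Finset.mem_filter.mp hx).1)
          refine ⟨⟨?_, ?_⟩, ?_⟩
          · rw [mem_closedBall_zero_iff, pi_norm_le_iff_of_nonneg (by norm_num)]
            intro i
            rw [Real.norm_eq_abs, abs_div, abs_of_pos (hb0 i), div_le_iff₀ (hb0 i)]
            exact hx1 i
          · rw [Set.mem_iUnion₂]
            refine ⟨s, hs, fun i hi => ?_⟩
            show 1 / 2 ≤ ‖(x i : ℝ) / b i‖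
            rw [Real.norm_eq_abs, abs_div, abs_of_pos (hb0 i), le_div_iff₀ (hb0 i)]
            linarith [hx2 i hi]
          · intro j
            rw [eval_map']
            have h2 := aeval_scale (hF j) hbT (fun i => (x i : ℝ) / b i)
            have h3 : (fun i => b i * ((x i : ℝ) / b i)) = fun i => (x i : ℝ) := by
              ext i
              have := (hb0 i).ne'
              field_simp
            rw [h3, aeval_int] at h2
            have h4 := hx3 j
            have h5 : 0 < ∏ i, b i ^ a j i := Finset.prod_pos fun i _ => zpow_pos (hb0 i) _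
            rw [h2, abs_mul, abs_of_pos h5, mul_comm (c * e j)] at h4
            rw [Real.norm_eq_abs]
            exact le_of_mul_le_mul_left h4 h5) (by
          intro z hz z' hz' hne
          obtain ⟨x, hx, rfl⟩ := Finset.mem_image.mp hz
          obtain ⟨x', hx', rfl⟩ := Finset.mem_image.mp hz'
          have hxx : x ≠ x' := by rintro rfl; exact hne rfl
          obtain ⟨hxT, hxy⟩ := Finset.mem_filter.mp hx
          obtain ⟨hxT', hxy'⟩ := Finset.mem_filter.mp hx'
          have hg : g x ≠ g x' := fun hg => hxx (hTi x hxT x' hxT' hg)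
          obtain ⟨i, hi⟩ := Function.ne_iff.mp hg
          have h2 : (2 : ℤ) ∣ g x i - g x' i := by
            have h3 : (g x i : ZMod 2) = (g x' i : ZMod 2) := congrFun (hxy.trans hxy'.symm) i
            rw [← sub_eq_zero, ← Int.cast_sub, ZMod.intCast_zmod_eq_zero_iff_dvd] at h3
            exact_mod_cast h3
          have h3 := hsep x x' i hi h2
          refine h3.trans ?_
          have h4 := norm_le_pi_norm ((fun i => (x i : ℝ) / b i) - fun i => (x' i : ℝ) / b i) i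
          simpa using h4)
      rwa [Finset.card_image_of_injective _ hinj] at h1
    have h1 := Finset.card_eq_sum_card_fiberwise (f := r) (s := T) (t := Finset.univ)
      (fun _ _ => Finset.mem_coe.mpr (Finset.mem_univ _))
    rw [h1]
    push_cast
    refine (Finset.sum_le_sum fun y _ => hpar y).trans (le_of_eq ?_)
    rw [Finset.sum_const, Finset.card_univ, nsmul_eq_mul, Fintype.card_pi_const, ZMod.card]
    push_cast
    rfl
  have hsum : (X.card : ℝ) ≤ ((X.image g).card : ℝ) * (3 ^ n * ∏ i, (b i / R)) := by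
    rw [Finset.card_eq_sum_card_image g X]
    push_cast
    calc ∑ y ∈ X.image g, (((X.filter (fun x => g x = y)).card : ℕ) : ℝ) ≤
          ∑ _y ∈ X.image g, 3 ^ n * ∏ i, (b i / R) := Finset.sum_le_sum hfib
      _ = _ := by rw [Finset.sum_const, nsmul_eq_mul]
  have hpos : 0 ≤ ∏ i, (b i / R) := Finset.prod_nonneg fun i _ => (div_pos (hb0 i) hR0).le
  rw [← hTc] at hsum
  refine hsum.trans ((mul_le_mul_of_nonneg_right hT (by positivity)).trans (le_of_eq ?_))
  rw [Finset.prod_div_distrib, Finset.prod_div_distrib, Finset.prod_const, Finset.prod_const,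
    Finset.card_univ, Fintype.card_fin, hh]
  rw [show (6 : ℝ) = 2 * 3 by norm_num, mul_pow, div_pow]
  have hMn : (M : ℝ) ^ n ≠ 0 := by positivity
  have hRn : R ^ n ≠ 0 := by positivity
  field_simp

theorem count (F : Fin q → MvPolynomial (Fin n) ℤ) (a' : Fin q → Fin n → ℤ)
    (hF : ∀ j, Homog v (F j) (a' j)) (S : Finset ℕ) (hSp : ∀ p ∈ S, p.Prime)
    (hR : SNCT Sg F ℝ) (hQ : ∀ p ∈ S, ∀ [Fact p.Prime], SNCT Sg F ℚ_[p]) (c : ℝ) (hc : 1 ≤ c) :
    ∃ C : ℝ, 0 ≤ C ∧ ∀ (b : Fin n → ℝ) (R : ℝ) (e : Fin q → ℝ) (a : ℕ → ℕ) (A : Fin q → ℕ → ℕ),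
      Tor v b → (∀ i, R ≤ b i) →
      (∀ j, 0 < e j) → (∀ p ∈ S, ∀ j, A j p ≤ a p) → ((∏ p ∈ S, p ^ a p : ℕ) : ℝ) ≤ R →
      (∀ j, ((∏ p ∈ S, p ^ a p : ℕ) : ℝ) ≤ R * e j) → ∀ X : Finset (Fin n → ℤ),
        (∀ x ∈ X, CoxPrim Sg x ∧ (∀ i, |(x i : ℝ)| ≤ 2 * b i) ∧
          (∃ s ∈ Sg, ∀ i, i ∉ s → b i / 2 ≤ |(x i : ℝ)|) ∧
          (∀ j, |((MvPolynomial.eval x (F j) : ℤ) : ℝ)| ≤ c * e j * ∏ i, b i ^ a' j i) ∧
          ∀ p ∈ S, ∀ j, (p : ℤ) ^ A j p ∣ MvPolynomial.eval x (F j)) →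
        (X.card : ℝ) ≤ C * ((∏ j, e j) * (∏ i, b i) / ∏ p ∈ S, ∏ j, (p : ℝ) ^ A j p) := by
  classical
  obtain ⟨C1, hC1, hb1⟩ := arch_count F a' hF hR c hc
  have h2 : ∀ p : {p // p ∈ S}, ∃ C : ℝ, 0 ≤ C ∧ ∀ (A : Fin q → ℕ) (a : ℕ), (∀ j, A j ≤ a) →
      ∀ X : Finset (Fin n → ℤ),
        (∀ x ∈ X, CoxPrim Sg x ∧ ∀ j, (p.1 : ℤ) ^ A j ∣ MvPolynomial.eval x (F j)) →
        (∀ x ∈ X, ∀ x' ∈ X, x ≠ x' → ∃ i, ¬ (p.1 : ℤ) ^ a ∣ x i - x' i) →
        (X.card : ℝ) ≤ C * (((p.1 : ℝ) ^ a) ^ n / ∏ j, (p.1 : ℝ) ^ A j) := by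
    intro p
    have : Fact p.1.Prime := ⟨hSp p.1 p.2⟩
    exact padic_count F p.1 (hQ p.1 p.2)
  choose C2 hC2 hb2 using h2
  have hprod : 0 ≤ ∏ p, C2 p := Finset.prod_nonneg fun p _ => hC2 p
  refine ⟨C1 * ∏ p, C2 p, by positivity, ?_⟩
  intro b R e a A hbT hRb he hAa hMB hMe X hX
  set M : ℕ := ∏ p ∈ S, p ^ a p with hM
  have hM1 : 1 ≤ M := Nat.one_le_iff_ne_zero.mpr
    (Finset.prod_ne_zero_iff.mpr fun p hp => pow_ne_zero _ (hSp p hp).ne_zero)
  have hMR : (1 : ℝ) ≤ M := by exact_mod_cast hM1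
  have hM0 : (0 : ℝ) < M := by linarith
  have hb0 : ∀ i, 0 < b i := hbT.1
  let r : (Fin n → ℤ) → (p : {p // p ∈ S}) → (Fin n → ZMod (p.1 ^ a p.1)) :=
    fun x p i => (x i : ZMod (p.1 ^ a p.1))
  -- number of classes modulo one prime power
  have hcl : ∀ p : {p // p ∈ S}, (((X.image (fun x => r x p)).card : ℕ) : ℝ) ≤
      C2 p * (((p.1 : ℝ) ^ a p.1) ^ n / ∏ j, (p.1 : ℝ) ^ A j p.1) := by
    intro p
    obtain ⟨T, hTX, hTc, hTi⟩ := exists_reps (fun x => r x p) X
    rw [← hTc]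
    apply hb2 p (fun j => A j p.1) (a p.1) (fun j => hAa p.1 p.2 j) T
    · intro x hx
      obtain ⟨h1, _, _, _, h5⟩ := hX x (hTX hx)
      exact ⟨h1, fun j => h5 p.1 p.2 j⟩
    · intro x hx x' hx' hne
      by_contra hcon
      push Not at hcon
      apply hne
      apply hTi x hx x' hx'
      ext i
      have h3 := hcon i
      show (x i : ZMod (p.1 ^ a p.1)) = (x' i : ZMod (p.1 ^ a p.1))
      rw [← sub_eq_zero, ← Int.cast_sub, ZMod.intCast_zmod_eq_zero_iff_dvd]
      exact_mod_cast h3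
  have hcls : (((X.image r).card : ℕ) : ℝ) ≤ (∏ p, C2 p) *
      ((M : ℝ) ^ n / ∏ p ∈ S, ∏ j, (p : ℝ) ^ A j p) := by
    have h1 : (X.image r).card ≤ ∏ p : {p // p ∈ S}, (X.image (fun x => r x p)).card := by
      rw [← Fintype.card_piFinset]
      apply Finset.card_le_card
      intro b hb
      obtain ⟨x, hx, rfl⟩ := Finset.mem_image.mp hb
      rw [Fintype.mem_piFinset]
      intro p
      exact Finset.mem_image.mpr ⟨x, hx, rfl⟩
    calc (((X.image r).card : ℕ) : ℝ) ≤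
          ((∏ p : {p // p ∈ S}, (X.image (fun x => r x p)).card : ℕ) : ℝ) := by exact_mod_cast h1
      _ = ∏ p : {p // p ∈ S}, (((X.image (fun x => r x p)).card : ℕ) : ℝ) := by push_cast; rfl
      _ ≤ ∏ p : {p // p ∈ S}, (C2 p * (((p.1 : ℝ) ^ a p.1) ^ n / ∏ j, (p.1 : ℝ) ^ A j p.1)) :=
        Finset.prod_le_prod (fun _ _ => by positivity) (fun p _ => hcl p)
      _ = (∏ p, C2 p) * ∏ p : {p // p ∈ S}, (((p.1 : ℝ) ^ a p.1) ^ n / ∏ j, (p.1 : ℝ) ^ A j p.1) :=
        Finset.prod_mul_distrib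
      _ = _ := by
        congr 1
        rw [Finset.prod_div_distrib]
        congr 1
        · rw [hM, Finset.prod_pow]
          push_cast
          rw [← Finset.prod_coe_sort S (fun p => (p : ℝ) ^ a p)]
        · rw [← Finset.prod_coe_sort S (fun p => ∏ j, (p : ℝ) ^ A j p)]
  -- the fibres
  have hfib : ∀ y ∈ X.image r, (((X.filter (fun x => r x = y)).card : ℕ) : ℝ) ≤
      C1 * ((∏ j, e j) * ∏ i, (b i / M)) := by
    intro y _
    apply hb1 b R e M hbT hRb he hM1 hMB hMe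
    · intro x hx
      obtain ⟨_, h2, h3, h4, _⟩ := hX x (Finset.mem_filter.mp hx).1
      exact ⟨h2, h3, h4⟩
    · intro x hx x' hx' i
      have h1 := (Finset.mem_filter.mp hx).2
      have h2 := (Finset.mem_filter.mp hx').2
      rw [hM]
      push_cast
      apply Finset.prod_dvd_of_coprime
      · intro p hp p' hp' hne
        have h3 : Nat.Coprime (p ^ a p) (p' ^ a p') :=
          Nat.Coprime.pow _ _ ((Nat.coprime_primes (hSp p hp) (hSp p' hp')).mpr hne)
        have h4 := Nat.isCoprime_iff_coprime.mpr h3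
        simp only [Function.onFun]
        exact_mod_cast h4
      · intro p hp
        have h3 : (x i : ZMod (p ^ a p)) = (x' i : ZMod (p ^ a p)) := by
          have h4 := congrFun (congrFun (h1.trans h2.symm) ⟨p, hp⟩) i
          exact h4
        rw [← sub_eq_zero, ← Int.cast_sub, ZMod.intCast_zmod_eq_zero_iff_dvd] at h3
        exact_mod_cast h3
  have hsum : (X.card : ℝ) ≤ ((X.image r).card : ℝ) * (C1 * ((∏ j, e j) * ∏ i, (b i / M))) := by
    rw [Finset.card_eq_sum_card_image r X]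
    push_cast
    calc ∑ y ∈ X.image r, (((X.filter (fun x => r x = y)).card : ℕ) : ℝ) ≤
          ∑ _y ∈ X.image r, C1 * ((∏ j, e j) * ∏ i, (b i / M)) := Finset.sum_le_sum hfib
      _ = _ := by rw [Finset.sum_const, nsmul_eq_mul]
  have hepos : 0 ≤ ∏ j, e j := Finset.prod_nonneg fun j _ => (he j).le
  have hbpos : 0 ≤ ∏ i, (b i / M) := Finset.prod_nonneg fun i _ => (div_pos (hb0 i) hM0).le
  refine hsum.trans ?_
  refine (mul_le_mul_of_nonneg_right hcls (by positivity)).trans (le_of_eq ?_)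
  have hAne : (∏ p ∈ S, ∏ j, (p : ℝ) ^ A j p) ≠ 0 := by
    refine Finset.prod_ne_zero_iff.mpr fun p hp => Finset.prod_ne_zero_iff.mpr fun j _ => ?_
    have : (p : ℝ) ≠ 0 := by exact_mod_cast (hSp p hp).ne_zero
    positivity
  rw [Finset.prod_div_distrib, Finset.prod_const, Finset.card_univ, Fintype.card_fin]
  field_simp

end

end Pool.Agent.K1H85.TV
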