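import Pool.Agent.K1H85.TV.Shell

set_option autoImplicit false

namespace Pool.Agent.K1H85.TV

open Finset

/-- smooth complete fan with rays `v i` and maximal cones `s ∈ Sg` -/
structure IsSmoothCompleteFan {n d : ℕ} (v : Fin n → Fin d → ℤ) (Sg : Finset (Finset (Fin n))) :
    Prop where
  basis : ∀ s ∈ Sg, ∀ y : Fin d → ℤ, ∃! c : Fin n → ℤ,
    (∀ i, i ∉ s → c i = 0) ∧ ∀ k, ∑ i, c i * v i k = y k
  complete : ∀ y : Fin d → ℝ, ∃! c : Fin n → ℝ,
    (∀ i, 0 ≤ c i) ∧ (∃ s ∈ Sg, ∀ i, i ∉ s → c i = 0) ∧ ∀ k, ∑ i, c i * v i k = y k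
  ray : ∀ i, ∃ s ∈ Sg, i ∈ s

variable {n d : ℕ} {v : Fin n → Fin d → ℤ} {Sg : Finset (Finset (Fin n))}

theorem exists_dual (h : IsSmoothCompleteFan v Sg) {s : Finset (Fin n)} (hs : s ∈ Sg) :
    ∃ w : Fin d → Fin n → ℤ, (∀ k i, i ∉ s → w k i = 0) ∧
      (∀ k l, ∑ i, w k i * v i l = if k = l then 1 else 0) ∧
      ∀ i ∈ s, ∀ l, ∑ k, v i k * w k l = if i = l then 1 else 0 := by
  classical
  have h1 : ∀ k : Fin d, ∃ c : Fin n → ℤ, (∀ i, i ∉ s → c i = 0) ∧
      ∀ l, ∑ i, c i * v i l = if k = l then 1 else 0 := fun k =>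
    (h.basis s hs (fun l => if k = l then 1 else 0)).exists
  choose w hw1 hw2 using h1
  refine ⟨w, hw1, hw2, ?_⟩
  intro i hi l
  have h2 := (h.basis s hs (v i)).unique (y₁ := fun l => ∑ k, v i k * w k l)
    (y₂ := fun l => if i = l then 1 else 0) (by
      refine ⟨fun j hj => ?_, fun k => ?_⟩
      · exact Finset.sum_eq_zero fun k _ => by rw [hw1 k j hj, mul_zero]
      · have h3 : ∀ j, (∑ k', v i k' * w k' j) * v j k = ∑ k', v i k' * (w k' j * v j k) := by
          intro j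
          rw [Finset.sum_mul]
          exact Finset.sum_congr rfl fun _ _ => by ring
        simp only [h3]
        rw [Finset.sum_comm]
        simp only [← Finset.mul_sum, hw2]
        simp) (by
      refine ⟨fun j hj => if_neg ?_, fun k => by simp⟩
      rintro rfl
      exact hj hi)
  exact congrFun h2 l

theorem int_rep (h : IsSmoothCompleteFan v Sg) (y : Fin d → ℤ) :
    ∃ m : Fin n → ℕ, (∃ s ∈ Sg, ∀ i, i ∉ s → m i = 0) ∧ ∀ k, ∑ i, (m i : ℤ) * v i k = y k := by
  classical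
  obtain ⟨c, ⟨hc0, ⟨s, hs, hcs⟩, hcy⟩, _⟩ := h.complete (fun k => (y k : ℝ))
  obtain ⟨w, hw1, hw2, hw3⟩ := exists_dual h hs
  have h1 : ∀ l, c l = ((∑ k, y k * w k l : ℤ) : ℝ) := by
    intro l
    push_cast
    have h2 : ∀ k, (y k : ℝ) * w k l = ∑ i, c i * (v i k * w k l) := by
      intro k
      have h3 : (y k : ℝ) = ∑ i, c i * v i k := (hcy k).symm
      rw [h3, Finset.sum_mul]
      exact Finset.sum_congr rfl fun _ _ => by ring
    simp only [h2]
    rw [Finset.sum_comm]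
    simp only [← Finset.mul_sum]
    have h3 : ∀ i, c i * ∑ k, ((v i k : ℝ) * w k l) = if i = l then c l else 0 := by
      intro i
      by_cases hi : i ∈ s
      · have h4 := hw3 i hi l
        have h5 : ∑ k, ((v i k : ℝ) * w k l) = ((if i = l then 1 else 0 : ℤ) : ℝ) := by
          rw [← h4]
          push_cast
          rfl
        rw [h5]
        by_cases hil : i = l
        · rw [if_pos hil, if_pos hil, hil]
          simp
        · rw [if_neg hil, if_neg hil]
          simp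
      · rw [hcs i hi, zero_mul]
        by_cases hil : i = l
        · rw [if_pos hil, ← hil, hcs i hi]
        · rw [if_neg hil]
    simp only [h3]
    simp
  have h0 : ∀ l, 0 ≤ ∑ k, y k * w k l := by
    intro l
    have := hc0 l
    rw [h1 l] at this
    exact_mod_cast this
  refine ⟨fun l => (∑ k, y k * w k l).toNat, ⟨s, hs, fun i hi => ?_⟩, fun k => ?_⟩
  · have : ∑ k, y k * w k i = 0 := Finset.sum_eq_zero fun k _ => by rw [hw1 k i hi, mul_zero]
    show (∑ k, y k * w k i).toNat = 0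
    rw [this]
    rfl
  · have h2 : ∀ i, (((∑ k, y k * w k i).toNat : ℕ) : ℤ) = ∑ k, y k * w k i := fun i =>
      Int.toNat_of_nonneg (h0 i)
    simp only [h2]
    have h3 : (((∑ i, (∑ k', y k' * w k' i) * v i k : ℤ)) : ℝ) = (y k : ℝ) := by
      push_cast
      have h4 := hcy k
      rw [← h4]
      refine Finset.sum_congr rfl fun i _ => ?_
      rw [h1 i]
      push_cast
      rfl
    exact_mod_cast h3

theorem rep_unique (h : IsSmoothCompleteFan v Sg) (m m' : Fin n → ℕ)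
    (hm : ∃ s ∈ Sg, ∀ i, i ∉ s → m i = 0) (hm' : ∃ s ∈ Sg, ∀ i, i ∉ s → m' i = 0)
    (hy : ∀ k, ∑ i, (m i : ℤ) * v i k = ∑ i, (m' i : ℤ) * v i k) : m = m' := by
  have h1 := (h.complete (fun k => ((∑ i, (m i : ℤ) * v i k : ℤ) : ℝ))).unique
    (y₁ := fun i => (m i : ℝ)) (y₂ := fun i => (m' i : ℝ))
    (by
      refine ⟨fun i => by positivity, ?_, fun k => by push_cast; rfl⟩
      obtain ⟨s, hs, h2⟩ := hm
      exact ⟨s, hs, fun i hi => by rw [h2 i hi]; simp⟩)
    (by
      refine ⟨fun i => by positivity, ?_, fun k => by rw [hy k]; push_cast; rfl⟩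
      obtain ⟨s, hs, h2⟩ := hm'
      exact ⟨s, hs, fun i hi => by rw [h2 i hi]; simp⟩)
  ext i
  have := congrFun h1 i
  exact_mod_cast this

/-- every point with non-zero coordinates has exactly one size -/
theorem size_unique (h : IsSmoothCompleteFan v Sg) (x : Fin n → ℤ) (hx : ∀ i, x i ≠ 0) :
    ∃! b : Fin n → ℝ, IsSize v Sg x b := by
  have hx0 : ∀ i, 0 < |(x i : ℝ)| := fun i => abs_pos.mpr (by exact_mod_cast hx i)
  obtain ⟨c, ⟨hc0, ⟨s, hs, hcs⟩, hcy⟩, hcu⟩ := h.complete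
    (fun k => -∑ i, Real.log |(x i : ℝ)| * v i k)
  have hlog : ∀ b : Fin n → ℝ, (∀ i, 0 < b i) → ((∀ k, ∏ i, b i ^ v i k = 1) ↔
      ∀ k, ∑ i, Real.log (b i) * v i k = 0) := by
    intro b hb
    apply forall_congr'
    intro k
    have h1 : 0 < ∏ i, b i ^ v i k := Finset.prod_pos fun i _ => zpow_pos (hb i) _
    have h2 : Real.log (∏ i, b i ^ v i k) = ∑ i, Real.log (b i) * v i k := by
      rw [Real.log_prod (fun i _ => (zpow_pos (hb i) _).ne')]
      refine Finset.sum_congr rfl fun i _ => by rw [Real.log_zpow]; ring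
    rw [← h2]
    constructor
    · intro h3
      rw [h3, Real.log_one]
    · intro h3
      exact Real.eq_one_of_pos_of_log_eq_zero h1 h3
  refine ⟨fun i => Real.exp (Real.log |(x i : ℝ)| + c i), ⟨⟨fun i => Real.exp_pos _, ?_⟩,
    s, hs, fun i => ⟨?_, fun hi => ?_⟩⟩, ?_⟩
  · rw [hlog _ fun i => Real.exp_pos _]
    intro k
    simp only [Real.log_exp, add_mul, Finset.sum_add_distrib, hcy]
    ring
  · show |(x i : ℝ)| ≤ Real.exp (Real.log |(x i : ℝ)| + c i)
    rw [Real.exp_add, Real.exp_log (hx0 i)]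
    exact le_mul_of_one_le_right (hx0 i).le (Real.one_le_exp (hc0 i))
  · show |(x i : ℝ)| = Real.exp (Real.log |(x i : ℝ)| + c i)
    rw [Real.exp_add, Real.exp_log (hx0 i), hcs i hi, Real.exp_zero, mul_one]
  · rintro b ⟨⟨hb0, hb1⟩, s', hs', hb2⟩
    rw [hlog b hb0] at hb1
    have h1 := hcu (fun i => Real.log (b i) - Real.log |(x i : ℝ)|) (by
      refine ⟨fun i => ?_, ⟨s', hs', fun i hi => ?_⟩, fun k => ?_⟩
      · rw [sub_nonneg]
        exact Real.log_le_log (hx0 i) (hb2 i).1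
      · show Real.log (b i) - Real.log |(x i : ℝ)| = 0
        rw [(hb2 i).2 hi, sub_self]
      · simp only [sub_mul, Finset.sum_sub_distrib, hb1 k]
        ring)
    ext i
    have h2 := congrFun h1 i
    rw [← h2, add_sub_cancel, Real.exp_log (hb0 i)]

/-- `x` are Cox coordinates of the point `t` of the torus -/
def IsCox {n d : ℕ} (v : Fin n → Fin d → ℤ) (Sg : Finset (Finset (Fin n))) (t : Fin d → ℚ)
    (x : Fin n → ℤ) : Prop :=
  CoxPrim Sg x ∧ (∀ i, x i ≠ 0) ∧ ∀ k, ∏ i, (x i : ℚ) ^ v i k = t k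

theorem rat_prod (t : ℚ) (ht : t ≠ 0) (P : Finset ℕ) (hP : ∀ p ∈ P, p.Prime)
    (h1 : t.num.natAbs.primeFactors ⊆ P) (h2 : t.den.primeFactors ⊆ P) :
    ∏ p ∈ P, (p : ℚ) ^ padicValRat p t = |t| := by
  have hnum : t.num.natAbs ≠ 0 := by
    rw [Int.natAbs_ne_zero]
    exact Rat.num_ne_zero.mpr ht
  have hden : t.den ≠ 0 := t.den_nz
  have h3 : ∀ m : ℕ, m ≠ 0 → m.primeFactors ⊆ P → ∏ p ∈ P, (p : ℚ) ^ padicValNat p m = m := by
    intro m hm hmP
    have h4 : (∏ p ∈ P, p ^ padicValNat p m : ℕ) = m := by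
      conv_rhs => rw [← Nat.prod_factorization_pow_eq_self hm]
      rw [Nat.prod_factorization_eq_prod_primeFactors]
      symm
      apply Finset.prod_subset_one_on_sdiff hmP
      · intro p hp
        rw [Finset.mem_sdiff] at hp
        have h5 : ¬ p ∣ m := fun hd => hp.2 (Nat.mem_primeFactors.mpr ⟨hP p hp.1, hd, hm⟩)
        rw [padicValNat.eq_zero_of_not_dvd h5, pow_zero]
      · intro p hp
        rw [Nat.factorization_def _ (Nat.prime_of_mem_primeFactors hp)]
    exact_mod_cast congrArg (fun m : ℕ => (m : ℚ)) h4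
  have h4 : ∀ p ∈ P, (p : ℚ) ^ padicValRat p t =
      (p : ℚ) ^ padicValNat p t.num.natAbs / (p : ℚ) ^ padicValNat p t.den := by
    intro p hp
    have hp0 : (p : ℚ) ≠ 0 := by exact_mod_cast (hP p hp).ne_zero
    unfold padicValRat padicValInt
    rw [zpow_sub₀ hp0, zpow_natCast, zpow_natCast]
  rw [Finset.prod_congr rfl h4, Finset.prod_div_distrib, h3 _ hnum h1, h3 _ hden h2]
  have h5 : |t| = |(t.num : ℚ)| / t.den := by
    conv_lhs => rw [← Rat.num_div_den t]
    rw [abs_div]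
    simp
  rw [h5]
  congr 1
  rw [Nat.cast_natAbs]
  push_cast
  rfl

theorem zpow_sum' {ι : Type*} {K : Type*} [Field K] {a : K} (ha : a ≠ 0) (T : Finset ι)
    (f : ι → ℤ) : a ^ (∑ i ∈ T, f i) = ∏ i ∈ T, a ^ f i := by
  classical
  induction T using Finset.induction_on with
  | empty => simp
  | insert k T hk ih => rw [Finset.sum_insert hk, Finset.prod_insert hk, zpow_add₀ ha, ih]

/-- existence of Cox coordinates -/
theorem cox_exists (h : IsSmoothCompleteFan v Sg) (t : Fin d → ℚ) (ht : ∀ k, t k ≠ 0) :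
    ∃ x : Fin n → ℤ, IsCox v Sg t x := by
  classical
  have hne : ∃ s, s ∈ Sg := by
    obtain ⟨c, ⟨_, ⟨s, hs, _⟩, _⟩, _⟩ := h.complete 0
    exact ⟨s, hs⟩
  obtain ⟨s0, hs0⟩ := hne
  obtain ⟨w, _, hw2, _⟩ := exists_dual h hs0
  have h1 : ∀ p : ℕ, ∃ m : Fin n → ℕ, (∃ s ∈ Sg, ∀ i, i ∉ s → m i = 0) ∧
      ∀ k, ∑ i, (m i : ℤ) * v i k = padicValRat p (t k) := fun p =>
    int_rep h (fun k => padicValRat p (t k))
  choose m hm1 hm2 using h1
  let P : Finset ℕ := Finset.univ.biUnion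
    (fun k : Fin d => (t k).num.natAbs.primeFactors ∪ (t k).den.primeFactors)
  have hP : ∀ p ∈ P, p.Prime := by
    intro p hp
    obtain ⟨k, _, hk⟩ := Finset.mem_biUnion.mp hp
    rcases Finset.mem_union.mp hk with hk | hk
    · exact Nat.prime_of_mem_primeFactors hk
    · exact Nat.prime_of_mem_primeFactors hk
  let sg : Fin d → ℤ := fun k => if 0 < t k then 1 else -1
  have hsg : ∀ k, sg k = 1 ∨ sg k = -1 := by
    intro k
    by_cases h2 : 0 < t k
    · exact Or.inl (if_pos h2)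
    · exact Or.inr (if_neg h2)
  have hsg0 : ∀ k, (sg k : ℚ) ≠ 0 := by
    intro k
    rcases hsg k with h2 | h2 <;> rw [h2] <;> norm_num
  have hsgz : ∀ k (z : ℤ), ((sg k ^ z.natAbs : ℤ) : ℚ) = (sg k : ℚ) ^ z := by
    intro k z
    push_cast
    rcases hsg k with h2 | h2
    · rw [h2]; simp
    · rw [h2]
      rcases Int.natAbs_eq z with h3 | h3
      · conv_rhs => rw [h3, zpow_natCast]
      · conv_rhs => rw [h3, zpow_neg, zpow_natCast, ← inv_pow]
        norm_num
  let ε : Fin n → ℤ := fun i => ∏ k, sg k ^ (w k i).natAbs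
  have hεQ : ∀ i, (ε i : ℚ) = ∏ k, (sg k : ℚ) ^ (w k i) := by
    intro i
    show ((∏ k, sg k ^ (w k i).natAbs : ℤ) : ℚ) = _
    rw [Int.cast_prod]
    exact Finset.prod_congr rfl fun k _ => hsgz k _
  have hε1 : ∀ i, IsUnit (ε i) := by
    intro i
    apply IsUnit.prod_univ_iff.mpr
    intro k
    apply IsUnit.pow
    rcases hsg k with h2 | h2 <;> rw [h2]
    · exact isUnit_one
    · exact isUnit_one.neg
  have hε0 : ∀ i, ε i ≠ 0 := fun i => (hε1 i).ne_zero
  have hεp : ∀ l, ∏ i, (ε i : ℚ) ^ v i l = sg l := by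
    intro l
    have h2 : ∀ i, (ε i : ℚ) ^ v i l = ∏ k, (sg k : ℚ) ^ (w k i * v i l) := by
      intro i
      rw [hεQ i, ← Finset.prod_zpow]
      refine Finset.prod_congr rfl fun k _ => by rw [zpow_mul]
    simp only [h2]
    rw [Finset.prod_comm]
    have h3 : ∀ k, ∏ i, (sg k : ℚ) ^ (w k i * v i l) = if k = l then (sg l : ℚ) else 1 := by
      intro k
      rw [← zpow_sum' (hsg0 k), hw2 k l]
      by_cases hkl : k = l
      · rw [if_pos hkl, if_pos hkl, zpow_one, hkl]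
      · rw [if_neg hkl, if_neg hkl, zpow_zero]
    simp only [h3]
    simp
  let x : Fin n → ℤ := fun i => ε i * ∏ p ∈ P, (p : ℤ) ^ m p i
  have hdiv : ∀ p : ℕ, p.Prime → ∀ i, (p : ℤ) ∣ x i → m p i ≠ 0 := by
    intro p hp i hpx hm0
    have hpp : Prime (p : ℤ) := Nat.prime_iff_prime_int.mp hp
    rcases hpp.dvd_or_dvd hpx with h2 | h2
    · exact hpp.not_isUnit (isUnit_of_dvd_unit h2 (hε1 i))
    · obtain ⟨r, hr, h3⟩ := (Prime.dvd_finsetProd_iff hpp _).mp h2
      have h4 := hpp.dvd_of_dvd_pow h3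
      have h5 : p ∣ r := by exact_mod_cast h4
      have h6 : p = r := (Nat.prime_dvd_prime_iff_eq hp (hP r hr)).mp h5
      rw [← h6, hm0, pow_zero] at h3
      exact hpp.not_isUnit (isUnit_of_dvd_one h3)
  refine ⟨x, ?_, ?_, ?_⟩
  · intro p hp
    obtain ⟨s, hs, h2⟩ := hm1 p
    exact ⟨s, hs, fun i hi hd => hdiv p hp i hd (h2 i hi)⟩
  · intro i
    apply mul_ne_zero (hε0 i)
    apply Finset.prod_ne_zero_iff.mpr
    intro p hp
    have : (p : ℤ) ≠ 0 := by exact_mod_cast (hP p hp).ne_zero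
    positivity
  · intro l
    have h2 : ∀ i, (x i : ℚ) ^ v i l = (ε i : ℚ) ^ v i l *
        ∏ p ∈ P, (p : ℚ) ^ ((m p i : ℤ) * v i l) := by
      intro i
      show ((ε i * ∏ p ∈ P, (p : ℤ) ^ m p i : ℤ) : ℚ) ^ v i l = _
      push_cast
      rw [mul_zpow, ← Finset.prod_zpow]
      congr 1
      refine Finset.prod_congr rfl fun p _ => by rw [zpow_mul, zpow_natCast]
    simp only [h2]
    rw [Finset.prod_mul_distrib, hεp l, Finset.prod_comm]
    have h3 : ∀ p ∈ P, ∏ i, (p : ℚ) ^ ((m p i : ℤ) * v i l) =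
        (p : ℚ) ^ padicValRat p (t l) := by
      intro p hp
      have hp0 : (p : ℚ) ≠ 0 := by exact_mod_cast (hP p hp).ne_zero
      rw [← zpow_sum' hp0, hm2 p l]
    rw [Finset.prod_congr rfl h3, rat_prod (t l) (ht l) P hP]
    · by_cases h4 : 0 < t l
      · have : sg l = 1 := if_pos h4
        rw [this, abs_of_pos h4]
        simp
      · have : sg l = -1 := if_neg h4
        rw [this, abs_of_nonpos (not_lt.mp h4)]
        simp
    · intro p hp
      exact Finset.mem_biUnion.mpr ⟨l, Finset.mem_univ l, Finset.mem_union_left _ hp⟩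
    · intro p hp
      exact Finset.mem_biUnion.mpr ⟨l, Finset.mem_univ l, Finset.mem_union_right _ hp⟩

theorem padicValRat_prod (p : ℕ) [Fact p.Prime] (T : Finset (Fin n)) (x : Fin n → ℤ)
    (hx : ∀ i, x i ≠ 0) (e : Fin n → ℤ) :
    padicValRat p (∏ i ∈ T, (x i : ℚ) ^ e i) = ∑ i ∈ T, (padicValInt p (x i) : ℤ) * e i := by
  classical
  have hxQ : ∀ i, (x i : ℚ) ≠ 0 := fun i => by exact_mod_cast hx i
  induction T using Finset.induction_on with
  | empty => simp
  | insert k T hk ih =>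
    rw [Finset.sum_insert hk, Finset.prod_insert hk, padicValRat.mul (zpow_ne_zero _ (hxQ k))
      (Finset.prod_ne_zero_iff.mpr fun i _ => zpow_ne_zero _ (hxQ i)), ih]
    congr 1
    have h1 : padicValRat p (x k : ℚ) = padicValInt p (x k) := padicValRat.of_int
    rw [padicValRat.zpow, h1]
    ring

/-- uniqueness of the Cox coordinates up to signs -/
theorem cox_unique (h : IsSmoothCompleteFan v Sg) (t : Fin d → ℚ) (x x' : Fin n → ℤ)
    (hx : IsCox v Sg t x) (hx' : IsCox v Sg t x') (i : Fin n) : |x i| = |x' i| := by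
  have h1 : ∀ p : ℕ, p.Prime → padicValInt p (x i) = padicValInt p (x' i) := by
    intro p hp
    have : Fact p.Prime := ⟨hp⟩
    have h2 : ∀ y : Fin n → ℤ, IsCox v Sg t y → (∃ s ∈ Sg, ∀ i, i ∉ s → padicValInt p (y i) = 0) ∧
        ∀ k, ∑ i, (padicValInt p (y i) : ℤ) * v i k = padicValRat p (t k) := by
      intro y hy
      constructor
      · obtain ⟨s, hs, h3⟩ := hy.1 p hp
        exact ⟨s, hs, fun i hi => padicValInt.eq_zero_of_not_dvd (h3 i hi)⟩
      · intro k
        rw [← hy.2.2 k, padicValRat_prod p Finset.univ y hy.2.1 (fun i => v i k)]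
    have h3 := rep_unique h (fun i => padicValInt p (x i)) (fun i => padicValInt p (x' i))
      (h2 x hx).1 (h2 x' hx').1 (fun k => by rw [(h2 x hx).2 k, (h2 x' hx').2 k])
    exact congrFun h3 i
  have h2 : (x i).natAbs = (x' i).natAbs := by
    have hn : (x i).natAbs ≠ 0 := Int.natAbs_ne_zero.mpr (hx.2.1 i)
    have hn' : (x' i).natAbs ≠ 0 := Int.natAbs_ne_zero.mpr (hx'.2.1 i)
    apply (Nat.eq_iff_prime_padicValNat_eq _ _ hn hn').mpr
    exact h1
  rw [Int.abs_eq_natAbs, Int.abs_eq_natAbs, h2]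

end Pool.Agent.K1H85.TV
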