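import Pool.Agent.K1H85.TV.Count
import Pool.Agent.TH42.NC.Grid

set_option autoImplicit false

namespace Pool.Agent.K1H85.TV

open Finset Pool.Agent.TH42.NC

section

variable {n d q : ℕ} {v : Fin n → Fin d → ℤ} {Sg : Finset (Finset (Fin n))}

theorem class_count (F : Fin q → MvPolynomial (Fin n) ℤ) (a' : Fin q → Fin n → ℤ)
    (hF : ∀ j, Homog v (F j) (a' j)) (S : Finset ℕ) (hSp : ∀ p ∈ S, p.Prime)
    (hR : SNCT Sg F ℝ) (hQ : ∀ p ∈ S, ∀ [Fact p.Prime], SNCT Sg F ℚ_[p]) (c : ℝ) (hc : 1 ≤ c) :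
    ∃ C : ℝ, 0 ≤ C ∧ ∀ (b : Fin n → ℝ) (R : ℝ) (K : ℕ) (k1 : Fin q → ℕ)
      (k2 : Fin q → {p // p ∈ S} → ℕ),
      Tor v b → 1 ≤ R → (∀ i, R ≤ b i) → 1 ≤ K → ∑ j, (k1 j + ∑ p, k2 j p) ≤ K →
      ∀ X : Finset (Fin n → ℤ),
        (∀ x ∈ X, CoxPrim Sg x ∧ (∀ i, |(x i : ℝ)| ≤ 2 * b i) ∧
          (∃ s ∈ Sg, ∀ i, i ∉ s → b i / 2 ≤ |(x i : ℝ)|) ∧
          (∀ j, MvPolynomial.eval x (F j) ≠ 0) ∧
          (∀ j, |((MvPolynomial.eval x (F j) : ℤ) : ℝ)| ≤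
            c * R ^ (-((k1 j : ℝ) / K)) * ∏ i, b i ^ a' j i) ∧
          ∀ p : {p // p ∈ S}, ∀ j, R ^ ((k2 j p : ℝ) / K) ≤
            (p.1 : ℝ) ^ padicValInt p.1 (MvPolynomial.eval x (F j))) →
        (X.card : ℝ) ≤ C * ((∏ i, b i) * R ^ (-(((∑ j, (k1 j + ∑ p, k2 j p) : ℕ) : ℝ) / K))) := by
  classical
  obtain ⟨C, hC, hb⟩ := count F a' hF S hSp hR hQ c hc
  have hP1 : (1 : ℝ) ≤ ∏ p : {p // p ∈ S}, ∏ _j : Fin q, (p.1 : ℝ) := by
    have h1 : ∀ p : {p // p ∈ S}, (1 : ℝ) ≤ p.1 := fun p => by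
      exact_mod_cast (hSp p.1 p.2).one_le
    have h2 : (1 : ℝ) = ∏ p : {p // p ∈ S}, ∏ _j : Fin q, (1 : ℝ) := by simp
    rw [h2]
    exact Finset.prod_le_prod (fun _ _ => by positivity) fun p _ =>
      Finset.prod_le_prod (fun _ _ => by positivity) fun j _ => h1 p
  refine ⟨C * ∏ p : {p // p ∈ S}, ∏ _j : Fin q, (p.1 : ℝ), by positivity, ?_⟩
  intro b B K k1 k2 hbT hB hBb hK hsum X hX
  have hB0 : 0 < B := by linarith
  have hKR : (1 : ℝ) ≤ K := by exact_mod_cast hK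
  have hK0 : (0 : ℝ) < K := by linarith
  have hbp : 0 < ∏ i, b i := Finset.prod_pos fun i _ => hbT.1 i
  have hA : ∀ (j : Fin q) (p : {p // p ∈ S}), ∃ A : ℕ, (p.1 : ℝ) ^ A ≤ B ^ ((k2 j p : ℝ) / K) ∧
      B ^ ((k2 j p : ℝ) / K) < (p.1 : ℝ) ^ (A + 1) := by
    intro j p
    apply exists_nat_pow_near
    · exact Real.one_le_rpow hB (by positivity)
    · exact_mod_cast (hSp p.1 p.2).one_lt
  choose A0 hA1 hA2 using hA
  have hAe : ∀ (j : Fin q) (p : {p // p ∈ S}),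
      (if hp : p.1 ∈ S then A0 j ⟨p.1, hp⟩ else 0) = A0 j p := by
    intro j p
    rw [dif_pos p.2]
  have hMle : ((∏ p ∈ S, p ^ (∑ j, if hp : p ∈ S then A0 j ⟨p, hp⟩ else 0) : ℕ) : ℝ) ≤
      B ^ (∑ j, ∑ p, ((k2 j p : ℝ) / K)) := by
    push_cast
    rw [← Finset.prod_coe_sort S
      (fun p => (p : ℝ) ^ (∑ j, if hp : p ∈ S then A0 j ⟨p, hp⟩ else 0))]
    have h1 : ∀ p : {p // p ∈ S}, (p.1 : ℝ) ^ (∑ j, if hp : p.1 ∈ S then A0 j ⟨p.1, hp⟩ else 0) =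
        ∏ j, (p.1 : ℝ) ^ A0 j p := by
      intro p
      rw [← Finset.prod_pow_eq_pow_sum]
      refine Finset.prod_congr rfl fun j _ => by rw [hAe]
    rw [Finset.prod_congr rfl fun p _ => h1 p, Finset.prod_comm, Real.rpow_sum_of_pos hB0]
    apply Finset.prod_le_prod (fun _ _ => by positivity)
    intro j _
    rw [Real.rpow_sum_of_pos hB0]
    exact Finset.prod_le_prod (fun _ _ => by positivity) fun p _ => hA1 j p
  have hs1 : (∑ j, ∑ p, ((k2 j p : ℝ) / K)) + ∑ j, ((k1 j : ℝ) / K) =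
      ((∑ j, (k1 j + ∑ p, k2 j p) : ℕ) : ℝ) / K := by
    push_cast
    rw [Finset.sum_add_distrib, add_div, Finset.sum_div, Finset.sum_div, add_comm]
    congr 1
    refine Finset.sum_congr rfl fun j _ => by rw [Finset.sum_div]
  have hs2 : ((∑ j, (k1 j + ∑ p, k2 j p) : ℕ) : ℝ) / K ≤ 1 := by
    rw [div_le_one hK0]
    exact_mod_cast hsum
  have hs3 : ∀ j, (k1 j : ℝ) / K ≤ ∑ j, ((k1 j : ℝ) / K) := fun j =>
    Finset.single_le_sum (f := fun j => (k1 j : ℝ) / K) (fun j _ => by positivity)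
      (Finset.mem_univ j)
  have hs4 : 0 ≤ ∑ j, ((k1 j : ℝ) / K) := Finset.sum_nonneg fun j _ => by positivity
  have h1 := hb b B (fun j => B ^ (-((k1 j : ℝ) / K)))
    (fun p => ∑ j, if hp : p ∈ S then A0 j ⟨p, hp⟩ else 0)
    (fun j p => if hp : p ∈ S then A0 j ⟨p, hp⟩ else 0) hbT hBb
    (fun j => by positivity)
    (fun p _ j => Finset.single_le_sum
      (f := fun j => if hp : p ∈ S then A0 j ⟨p, hp⟩ else 0) (fun _ _ => Nat.zero_le _)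
      (Finset.mem_univ j))
    (hMle.trans (by
      calc B ^ (∑ j, ∑ p, ((k2 j p : ℝ) / K)) ≤ B ^ (1 : ℝ) :=
            Real.rpow_le_rpow_of_exponent_le hB (by linarith)
        _ = B := Real.rpow_one B))
    (fun j => hMle.trans (by
      calc B ^ (∑ j, ∑ p, ((k2 j p : ℝ) / K)) ≤ B ^ (1 + -((k1 j : ℝ) / K)) :=
            Real.rpow_le_rpow_of_exponent_le hB (by linarith [hs3 j])
        _ = B * B ^ (-((k1 j : ℝ) / K)) := by rw [Real.rpow_add hB0, Real.rpow_one]))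
    X (fun x hx => by
      obtain ⟨h1, h2, h3, h4, h5, h6⟩ := hX x hx
      refine ⟨h1, h2, h3, h5, ?_⟩
      intro p hp j
      simp only [dif_pos hp]
      have h7 := h6 ⟨p, hp⟩ j
      have h8 := (hA1 j ⟨p, hp⟩).trans h7
      have hp1 : (1 : ℝ) < p := by exact_mod_cast (hSp p hp).one_lt
      have h9 : A0 j ⟨p, hp⟩ ≤ padicValInt p (MvPolynomial.eval x (F j)) := by
        exact (pow_le_pow_iff_right₀ hp1).mp h8
      have : Fact p.Prime := ⟨hSp p hp⟩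
      rw [padicValInt_dvd_iff]
      exact Or.inr h9)
  refine h1.trans ?_
  rw [mul_assoc]
  apply mul_le_mul_of_nonneg_left _ hC
  rw [div_le_iff₀ (by
    refine Finset.prod_pos fun p hp => Finset.prod_pos fun j _ => ?_
    have : (0 : ℝ) < p := by exact_mod_cast (hSp p hp).pos
    positivity)]
  have h2 : ∏ j, B ^ (-((k1 j : ℝ) / K)) = B ^ (-∑ j, ((k1 j : ℝ) / K)) := by
    rw [← Finset.sum_neg_distrib, Real.rpow_sum_of_pos hB0]
  have h3 : B ^ (∑ j, ∑ p, ((k2 j p : ℝ) / K)) ≤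
      (∏ p : {p // p ∈ S}, ∏ _j : Fin q, (p.1 : ℝ)) *
        ∏ p ∈ S, ∏ j, (p : ℝ) ^ (if hp : p ∈ S then A0 j ⟨p, hp⟩ else 0) := by
    rw [← Finset.prod_coe_sort S
      (fun p => ∏ j, (p : ℝ) ^ (if hp : p ∈ S then A0 j ⟨p, hp⟩ else 0)),
      ← Finset.prod_mul_distrib, Real.rpow_sum_of_pos hB0]
    have h4 : ∏ j, B ^ (∑ p, ((k2 j p : ℝ) / K)) = ∏ p, ∏ j, B ^ ((k2 j p : ℝ) / K) := by
      rw [Finset.prod_comm]
      refine Finset.prod_congr rfl fun j _ => by rw [Real.rpow_sum_of_pos hB0]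
    rw [h4]
    apply Finset.prod_le_prod (fun _ _ => by positivity)
    intro p _
    rw [← Finset.prod_mul_distrib]
    apply Finset.prod_le_prod (fun _ _ => by positivity)
    intro j _
    rw [hAe]
    have := (hA2 j p).le
    rwa [pow_succ, mul_comm] at this
  rw [h2, ← hs1]
  calc B ^ (-∑ j, ((k1 j : ℝ) / K)) * ∏ i, b i =
        ((∏ i, b i) * B ^ (-(∑ j, ∑ p, ((k2 j p : ℝ) / K) + ∑ j, ((k1 j : ℝ) / K)))) *
          B ^ (∑ j, ∑ p, ((k2 j p : ℝ) / K)) := by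
        rw [mul_assoc, ← Real.rpow_add hB0, mul_comm]
        congr 2
        ring
    _ ≤ ((∏ i, b i) * B ^ (-(∑ j, ∑ p, ((k2 j p : ℝ) / K) + ∑ j, ((k1 j : ℝ) / K)))) *
          ((∏ p : {p // p ∈ S}, ∏ _j : Fin q, (p.1 : ℝ)) *
            ∏ p ∈ S, ∏ j, (p : ℝ) ^ (if hp : p ∈ S then A0 j ⟨p, hp⟩ else 0)) :=
        mul_le_mul_of_nonneg_left h3 (by positivity)
    _ = _ := by ring

end

end Pool.Agent.K1H85.TV
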