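import Pool.Agent.K1H85.TV.Shell

set_option autoImplicit false

namespace Pool.Agent.K1H85.TV

open Finset Pool.Agent.TH42.NC

section

variable {n d q : ℕ} {v : Fin n → Fin d → ℤ} {Sg : Finset (Finset (Fin n))}

/-- the number of dyadic cells is small -/
theorem log_cells (n : ℕ) (δ : ℝ) (hδ : 0 < δ) : ∃ C : ℝ, 0 ≤ C ∧ ∀ B : ℝ, 1 ≤ B →
    (((Nat.log 2 ⌊B⌋₊ + 1) ^ n : ℕ) : ℝ) ≤ C * B ^ δ := by
  set e : ℝ := δ / (n + 1) with he
  have he0 : 0 < e := by positivity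
  have hlog2 : 0 < Real.log 2 := Real.log_pos (by norm_num)
  refine ⟨(1 / (e * Real.log 2) + 1) ^ n, by positivity, ?_⟩
  intro B hB
  have hB0 : 0 < B := by linarith
  have h1 : (Nat.log 2 ⌊B⌋₊ : ℝ) ≤ B ^ e / e / Real.log 2 := by
    have h2 : ⌊B⌋₊ ≠ 0 := by
      have : 1 ≤ ⌊B⌋₊ := Nat.le_floor (by exact_mod_cast hB)
      omega
    have h3 := Nat.pow_log_le_self 2 h2
    have h4 : ((2 : ℝ) ^ Nat.log 2 ⌊B⌋₊) ≤ B := by
      calc ((2 : ℝ) ^ Nat.log 2 ⌊B⌋₊) = ((2 ^ Nat.log 2 ⌊B⌋₊ : ℕ) : ℝ) := by push_cast; rfl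
        _ ≤ (⌊B⌋₊ : ℝ) := by exact_mod_cast h3
        _ ≤ B := Nat.floor_le hB0.le
    have h5 := Real.log_le_log (by positivity) h4
    rw [Real.log_pow] at h5
    rw [le_div_iff₀ hlog2]
    exact h5.trans (Real.log_le_rpow_div hB0.le he0)
  have h2 : 1 ≤ B ^ e := Real.one_le_rpow hB he0.le
  have h3 : ((Nat.log 2 ⌊B⌋₊ : ℝ) + 1) ≤ (1 / (e * Real.log 2) + 1) * B ^ e := by
    have h4 : B ^ e / e / Real.log 2 = 1 / (e * Real.log 2) * B ^ e := by field_simp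
    rw [h4] at h1
    nlinarith
  push_cast
  calc ((Nat.log 2 ⌊B⌋₊ : ℝ) + 1) ^ n ≤ ((1 / (e * Real.log 2) + 1) * B ^ e) ^ n :=
        pow_le_pow_left₀ (by positivity) h3 n
    _ = (1 / (e * Real.log 2) + 1) ^ n * B ^ (e * n) := by
        rw [mul_pow, ← Real.rpow_natCast (B ^ e), ← Real.rpow_mul hB0.le]
    _ ≤ (1 / (e * Real.log 2) + 1) ^ n * B ^ δ := by
        apply mul_le_mul_of_nonneg_left _ (by positivity)
        apply Real.rpow_le_rpow_of_exponent_le hB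
        rw [he, div_mul_eq_mul_div, div_le_iff₀ (by positivity)]
        nlinarith

theorem main (F : Fin q → MvPolynomial (Fin n) ℤ) (a : Fin q → Fin n → ℤ)
    (hF : ∀ j, Homog v (F j) (a j)) (S : Finset ℕ) (hSp : ∀ p ∈ S, p.Prime)
    (hR : SNCT Sg F ℝ) (hQ : ∀ p ∈ S, ∀ [Fact p.Prime], SNCT Sg F ℚ_[p])
    (κ : Fin n → ℝ) (hκ : ∀ i, 0 ≤ κ i) (c0 δ : ℝ) (hδ : 0 < δ) :
    ∃ C : ℝ, 0 ≤ C ∧ ∀ B Y : ℝ, 1 ≤ B → 1 ≤ Y → ∀ X : Finset (Fin n → ℤ),
      (∀ x ∈ X, CoxPrim Sg x ∧ (∀ j, MvPolynomial.eval x (F j) ≠ 0) ∧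
        ∃ b : Fin n → ℝ, IsSize v Sg x b ∧ (∀ i, Y ≤ b i) ∧ ∏ i, b i ≤ B ∧
        ∑ i, κ i * Real.log (b i) + c0 ≤ prox F a S b x) →
      (X.card : ℝ) ≤ C * B ^ (1 + δ) * Y ^ (-min (∑ i, κ i) 1) := by
  classical
  obtain ⟨C1, hC1, hb1⟩ := shell F a hF S hSp hR hQ κ hκ c0 (δ / 2) (by positivity)
  obtain ⟨C2, hC2, hb2⟩ := log_cells n (δ / 2) (by positivity)
  set θ : ℝ := min (∑ i, κ i) 1 with hθ
  refine ⟨C2 * C1, by positivity, ?_⟩
  intro B Y hB hY X hX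
  have hB0 : 0 < B := by linarith
  have hY0 : 0 < Y := by linarith
  choose! b hb using fun x hx => (hX x hx).2.2
  have hb1' : ∀ x ∈ X, ∀ i, 1 ≤ b x i := fun x hx i => hY.trans ((hb x hx).2.1 i)
  have hbB : ∀ x ∈ X, ∀ i, b x i ≤ B := by
    intro x hx i
    refine le_trans ?_ (hb x hx).2.2.1
    rw [← Finset.mul_prod_erase _ _ (Finset.mem_univ i)]
    have h1 : 1 ≤ ∏ l ∈ Finset.univ.erase i, b x l := by
      have h2 : ∏ l ∈ Finset.univ.erase i, (1 : ℝ) ≤ ∏ l ∈ Finset.univ.erase i, b x l :=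
        Finset.prod_le_prod (fun _ _ => zero_le_one) fun l _ => hb1' x hx l
      simpa using h2
    have h2 : 0 ≤ b x i := by linarith [hb1' x hx i]
    nlinarith
  -- the radius
  obtain ⟨R, hR1, hRY, hRB, hRθ⟩ : ∃ R : ℝ, 1 ≤ R ∧ R ≤ Y ∧ (X.Nonempty → R ≤ B) ∧
      R ^ (-θ) ≤ Y ^ (-θ) := by
    rcases Nat.eq_zero_or_pos n with hn | hn
    · refine ⟨1, le_rfl, hY, fun _ => hB, ?_⟩
      have : θ = 0 := by
        subst hn
        rw [hθ]
        simp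
      rw [this, neg_zero, Real.rpow_zero, Real.rpow_zero]
    · refine ⟨Y, hY, le_rfl, ?_, le_rfl⟩
      rintro ⟨x, hx⟩
      exact ((hb x hx).2.1 ⟨0, hn⟩).trans (hbB x hx ⟨0, hn⟩)
  let L : ℕ := Nat.log 2 ⌊B⌋₊
  let g : (Fin n → ℤ) → (Fin n → ℕ) := fun x i => Nat.log 2 ⌊b x i⌋₊
  have hg : ∀ x ∈ X, ∀ i, (2 : ℝ) ^ g x i ≤ b x i ∧ b x i < 2 ^ (g x i + 1) := by
    intro x hx i
    have h1 := hb1' x hx i
    have h2 : ⌊b x i⌋₊ ≠ 0 := by
      have : 1 ≤ ⌊b x i⌋₊ := Nat.le_floor (by exact_mod_cast h1)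
      omega
    constructor
    · have h3 := Nat.pow_log_le_self 2 h2
      calc ((2 : ℝ) ^ g x i) = ((2 ^ Nat.log 2 ⌊b x i⌋₊ : ℕ) : ℝ) := by push_cast; rfl
        _ ≤ (⌊b x i⌋₊ : ℝ) := by exact_mod_cast h3
        _ ≤ b x i := Nat.floor_le (by linarith)
    · have h3 := Nat.lt_pow_succ_log_self (b := 2) one_lt_two ⌊b x i⌋₊
      have h4 := (Nat.floor_lt (by linarith : 0 ≤ b x i)).mp h3
      push_cast at h4
      exact h4
  have hcard : (X.card : ℝ) ≤ ∑ k ∈ Fintype.piFinset (fun _ : Fin n => Finset.range (L + 1)),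
      (((X.filter (fun x => g x = k)).card : ℕ) : ℝ) := by
    have h1 := Finset.card_eq_sum_card_fiberwise (f := g) (s := X)
      (t := Fintype.piFinset (fun _ : Fin n => Finset.range (L + 1))) (by
        intro x hx
        simp only [Finset.mem_coe, Fintype.mem_piFinset, Finset.mem_range]
        intro i
        have h2 : ⌊b x i⌋₊ ≤ ⌊B⌋₊ := Nat.floor_le_floor (hbB x hx i)
        have h3 := Nat.log_mono_right (b := 2) h2
        show Nat.log 2 ⌊b x i⌋₊ < Nat.log 2 ⌊B⌋₊ + 1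
        omega)
    rw [h1]
    push_cast
    exact le_rfl
  have hfib : ∀ k ∈ Fintype.piFinset (fun _ : Fin n => Finset.range (L + 1)),
      (((X.filter (fun x => g x = k)).card : ℕ) : ℝ) ≤ C1 * (B ^ (1 + δ / 2) * Y ^ (-θ)) := by
    intro k _
    rcases (X.filter (fun x => g x = k)).eq_empty_or_nonempty with he | ⟨x0, hx0⟩
    · rw [he, Finset.card_empty, Nat.cast_zero]
      positivity
    obtain ⟨hx0X, hkx0⟩ := Finset.mem_filter.mp hx0
    have h1 := hb1 (b x0) R (hb x0 hx0X).1.1 hR1 (fun i => hRY.trans ((hb x0 hx0X).2.1 i))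
      (X.filter (fun x => g x = k)) (by
        intro x hx
        obtain ⟨hxX, hkx⟩ := Finset.mem_filter.mp hx
        obtain ⟨h1, h2, _⟩ := hX x hxX
        obtain ⟨h3, h4, h5, h6⟩ := hb x hxX
        refine ⟨h1, h2, b x, h3, fun i => ?_, h6⟩
        have e1 := hg x hxX i
        have e2 := hg x0 hx0X i
        have e3 : g x i = g x0 i := by rw [hkx, hkx0]
        rw [e3] at e1
        rw [pow_succ] at e1 e2
        constructor <;> linarith [e1.1, e1.2, e2.1, e2.2])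
    refine h1.trans ?_
    apply mul_le_mul_of_nonneg_left _ hC1
    have hRpos : 0 < R := by linarith
    calc (∏ i, b x0 i) * R ^ (-θ + δ / 2) ≤ B * (Y ^ (-θ) * B ^ (δ / 2)) := by
          apply mul_le_mul (hb x0 hx0X).2.2.1 _ (by positivity) hB0.le
          rw [Real.rpow_add hRpos]
          apply mul_le_mul hRθ _ (by positivity) (by positivity)
          exact Real.rpow_le_rpow hRpos.le (hRB ⟨x0, hx0X⟩) (by positivity)
      _ = B ^ (1 + δ / 2) * Y ^ (-θ) := by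
          rw [Real.rpow_add hB0, Real.rpow_one]
          ring
  refine hcard.trans ((Finset.sum_le_sum hfib).trans ?_)
  rw [Finset.sum_const, Fintype.card_piFinset]
  simp only [Finset.card_range, Finset.prod_const, Finset.card_univ, nsmul_eq_mul,
    Fintype.card_fin]
  have h2 := hb2 B hB
  calc (((L + 1) ^ n : ℕ) : ℝ) * (C1 * (B ^ (1 + δ / 2) * Y ^ (-θ))) ≤
        (C2 * B ^ (δ / 2)) * (C1 * (B ^ (1 + δ / 2) * Y ^ (-θ))) :=
        mul_le_mul_of_nonneg_right h2 (by positivity)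
    _ = C2 * C1 * (B ^ (δ / 2) * B ^ (1 + δ / 2)) * Y ^ (-θ) := by ring
    _ = C2 * C1 * B ^ (1 + δ) * Y ^ (-θ) := by
        rw [← Real.rpow_add hB0]
        congr 3
        ring

end

end Pool.Agent.K1H85.TV
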