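import Pool.Agent.K1H85.TV.Grid

set_option autoImplicit false

namespace Pool.Agent.K1H85.TV

open Finset Pool.Agent.TH42.NC

section

variable {n d q : ℕ} {v : Fin n → Fin d → ℤ} {Sg : Finset (Finset (Fin n))}

/-- the sum of the proximities at the places of `S` and the real place, for a point of size `b` -/
noncomputable def prox (F : Fin q → MvPolynomial (Fin n) ℤ) (a : Fin q → Fin n → ℤ) (S : Finset ℕ)
    (b : Fin n → ℝ) (x : Fin n → ℤ) : ℝ :=
  ∑ j, (Real.log ((∏ i, b i ^ a j i) / |((MvPolynomial.eval x (F j) : ℤ) : ℝ)|) +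
    ∑ p ∈ S, (padicValInt p (MvPolynomial.eval x (F j)) : ℝ) * Real.log p)

/-- `b` is the size of `x` -/
def IsSize (v : Fin n → Fin d → ℤ) (Sg : Finset (Finset (Fin n))) (x : Fin n → ℤ)
    (b : Fin n → ℝ) : Prop :=
  Tor v b ∧ ∃ s ∈ Sg, ∀ i, |(x i : ℝ)| ≤ b i ∧ (i ∉ s → |(x i : ℝ)| = b i)

theorem exists_bound (F : Fin q → MvPolynomial (Fin n) ℤ) (a : Fin q → Fin n → ℤ)
    (hF : ∀ j, Homog v (F j) (a j)) : ∃ c : ℝ, 1 ≤ c ∧ ∀ (b : Fin n → ℝ) (x : Fin n → ℤ),
      Tor v b → (∀ i, |(x i : ℝ)| ≤ 2 * b i) → ∀ j,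
        |((MvPolynomial.eval x (F j) : ℤ) : ℝ)| ≤ c * ∏ i, b i ^ a j i := by
  have h1 : ∀ j, ∃ c : ℝ, ∀ z ∈ Metric.closedBall (0 : Fin n → ℝ) 2,
      ‖MvPolynomial.eval z ((F j).map (Int.castRingHom ℝ))‖ ≤ c := fun j =>
    (isCompact_closedBall _ _).exists_bound_of_continuousOn (continuous_eval _).continuousOn
  choose c hc using h1
  refine ⟨1 + ∑ j, |c j|, by
    have : 0 ≤ ∑ j, |c j| := Finset.sum_nonneg fun j _ => abs_nonneg _
    linarith, ?_⟩
  intro b x hb hx j
  have hb0 := hb.1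
  have h2 := hc j (fun i => (x i : ℝ) / b i) (by
    rw [mem_closedBall_zero_iff, pi_norm_le_iff_of_nonneg (by norm_num)]
    intro i
    rw [Real.norm_eq_abs, abs_div, abs_of_pos (hb0 i), div_le_iff₀ (hb0 i)]
    exact hx i)
  rw [eval_map'] at h2
  have h3 := aeval_scale (hF j) hb (fun i => (x i : ℝ) / b i)
  have h4 : (fun i => b i * ((x i : ℝ) / b i)) = fun i => (x i : ℝ) := by
    ext i
    have := (hb0 i).ne'
    field_simp
  rw [h4, aeval_int] at h3
  have h6 : 0 < ∏ i, b i ^ a j i := Finset.prod_pos fun i _ => zpow_pos (hb0 i) _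
  rw [h3, abs_mul, abs_of_pos h6, mul_comm]
  apply mul_le_mul_of_nonneg_right _ h6.le
  rw [Real.norm_eq_abs] at h2
  have h5 : c j ≤ ∑ j, |c j| := (le_abs_self _).trans
    (Finset.single_le_sum (f := fun j => |c j|) (fun j _ => abs_nonneg _) (Finset.mem_univ j))
  linarith

/-- comparison of the products for two comparable sizes -/
theorem prod_compare (a : Fin n → ℤ) (b b0 : Fin n → ℝ) (hb0 : ∀ i, 0 < b0 i)
    (h : ∀ i, b0 i / 2 ≤ b i ∧ b i ≤ 2 * b0 i) :
    ∏ i, b i ^ a i ≤ (2 : ℝ) ^ (∑ i, (a i).natAbs) * ∏ i, b0 i ^ a i := by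
  rw [← Finset.prod_pow_eq_pow_sum, ← Finset.prod_mul_distrib]
  apply Finset.prod_le_prod
  · intro i _
    have : 0 < b i := by linarith [(h i).1, hb0 i]
    positivity
  · intro i _
    have hbi : 0 < b i := by linarith [(h i).1, hb0 i]
    rcases Int.natAbs_eq (a i) with h1 | h1
    · rw [h1, zpow_natCast, zpow_natCast, Int.natAbs_natCast, ← mul_pow]
      exact pow_le_pow_left₀ hbi.le (h i).2 _
    · rw [h1, zpow_neg, zpow_natCast, zpow_neg, zpow_natCast, Int.natAbs_neg, Int.natAbs_natCast,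
        ← inv_pow, ← inv_pow, ← mul_pow]
      apply pow_le_pow_left₀ (by positivity)
      have h2 := (h i).1
      rw [inv_le_iff_one_le_mul₀ hbi]
      have h3 := hb0 i
      have h4 : 2 * (b0 i)⁻¹ * (b0 i / 2) = 1 := by field_simp
      calc (1 : ℝ) = 2 * (b0 i)⁻¹ * (b0 i / 2) := h4.symm
        _ ≤ 2 * (b0 i)⁻¹ * b i := mul_le_mul_of_nonneg_left h2 (by positivity)

/-- the trivial bound -/
theorem box_trivial (b : Fin n → ℝ) (hb : ∀ i, 1 ≤ b i) (X : Finset (Fin n → ℤ))
    (hX : ∀ x ∈ X, ∀ i, |(x i : ℝ)| ≤ 2 * b i) : (X.card : ℝ) ≤ 5 ^ n * ∏ i, b i := by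
  classical
  have hcard : X.card ≤ (Fintype.piFinset
      (fun i => Finset.Icc (-(⌊2 * b i⌋₊ : ℤ)) (⌊2 * b i⌋₊ : ℤ))).card := by
    apply Finset.card_le_card
    intro x hx
    rw [Fintype.mem_piFinset]
    intro i
    have h2 := hX x hx i
    have h5 : ((x i).natAbs : ℝ) ≤ 2 * b i := by
      rw [Nat.cast_natAbs]
      push_cast
      exact h2
    have h6 : (x i).natAbs ≤ ⌊2 * b i⌋₊ := Nat.le_floor h5
    rw [Finset.mem_Icc]
    omega
  have h1 : (((Fintype.piFinset
      (fun i => Finset.Icc (-(⌊2 * b i⌋₊ : ℤ)) (⌊2 * b i⌋₊ : ℤ))).card : ℕ) : ℝ) ≤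
      ∏ i, (5 * b i) := by
    rw [Fintype.card_piFinset]
    push_cast
    apply Finset.prod_le_prod (fun _ _ => by positivity)
    intro i _
    rw [Int.card_Icc]
    have h2 : ((⌊2 * b i⌋₊ : ℤ) + 1 - -(⌊2 * b i⌋₊ : ℤ)).toNat = 2 * ⌊2 * b i⌋₊ + 1 := by omega
    rw [h2]
    push_cast
    have h3 := Nat.floor_le (by linarith [hb i] : 0 ≤ 2 * b i)
    linarith [hb i]
  calc (X.card : ℝ) ≤ _ := by exact_mod_cast hcard
    _ ≤ _ := h1
    _ = _ := by rw [Finset.prod_mul_distrib, Finset.prod_const, Finset.card_univ, Fintype.card_fin]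

theorem shell (F : Fin q → MvPolynomial (Fin n) ℤ) (a : Fin q → Fin n → ℤ)
    (hF : ∀ j, Homog v (F j) (a j)) (S : Finset ℕ) (hSp : ∀ p ∈ S, p.Prime)
    (hR : SNCT Sg F ℝ) (hQ : ∀ p ∈ S, ∀ [Fact p.Prime], SNCT Sg F ℚ_[p])
    (κ : Fin n → ℝ) (hκ : ∀ i, 0 ≤ κ i) (c0 δ : ℝ) (hδ : 0 < δ) :
    ∃ C : ℝ, 0 ≤ C ∧ ∀ (b0 : Fin n → ℝ) (B : ℝ), Tor v b0 → 1 ≤ B → (∀ i, B ≤ b0 i) →
      ∀ X : Finset (Fin n → ℤ),
      (∀ x ∈ X, CoxPrim Sg x ∧ (∀ j, MvPolynomial.eval x (F j) ≠ 0) ∧
        ∃ b : Fin n → ℝ, IsSize v Sg x b ∧ (∀ i, b0 i / 2 ≤ b i ∧ b i ≤ 2 * b0 i) ∧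
        ∑ i, κ i * Real.log (b i) + c0 ≤ prox F a S b x) →
      (X.card : ℝ) ≤ C * ((∏ i, b0 i) * B ^ (-min (∑ i, κ i) 1 + δ)) := by
  classical
  obtain ⟨c, hc, hcb⟩ := exists_bound F a hF
  obtain ⟨C, hC, hb⟩ := class_count F a hF S hSp hR hQ c hc
  let ι := Fin q × Option {p // p ∈ S}
  obtain ⟨K, hK⟩ := exists_nat_gt ((Fintype.card ι : ℝ) / δ)
  have hK1 : 1 ≤ K := by
    have : (0 : ℝ) < K := lt_of_le_of_lt (by positivity) hK
    exact_mod_cast this
  have hKR : (1 : ℝ) ≤ K := by exact_mod_cast hK1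
  have hK0 : (0 : ℝ) < K := by linarith
  have hmK : (Fintype.card ι : ℝ) / K ≤ δ := by
    rw [div_lt_iff₀ hδ] at hK
    rw [div_le_iff₀ hK0]
    linarith
  have hκs : 0 ≤ ∑ i, κ i := Finset.sum_nonneg fun i _ => hκ i
  set θ : ℝ := min (∑ i, κ i) 1 with hθ
  have hθ0 : 0 ≤ θ := le_min hκs zero_le_one
  have hθ1 : θ ≤ 1 := min_le_right _ _
  set A : ℝ := ∑ j, ((∑ i, (a j i).natAbs : ℕ) : ℝ) * Real.log 2 with hA
  set c' : ℝ := A + (∑ i, κ i) * Real.log 2 + |c0| with hc'
  have hlog2 : 0 < Real.log 2 := Real.log_pos (by norm_num)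
  have hA0 : 0 ≤ A := Finset.sum_nonneg fun j _ => by positivity
  have hc'0 : 0 ≤ c' := by positivity
  refine ⟨((K + 1 : ℕ) : ℝ) ^ Fintype.card ι * (C * Real.exp c') + 2 * 5 ^ n, by positivity, ?_⟩
  intro b0 B hb0T hB1 hBb X hX
  have hB0 : 0 < B := by linarith
  have hb0 : ∀ i, 0 < b0 i := hb0T.1
  have hb1 : ∀ i, 1 ≤ b0 i := fun i => hB1.trans (hBb i)
  have hprod : 0 < ∏ i, b0 i := Finset.prod_pos fun i _ => hb0 i
  have hx2 : ∀ x ∈ X, ∀ i, |(x i : ℝ)| ≤ 2 * b0 i := by
    intro x hx i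
    obtain ⟨_, _, b, ⟨_, s, _, hs⟩, hbb, _⟩ := hX x hx
    exact (hs i).1.trans (hbb i).2
  by_cases hB : B < 2
  · have h1 := box_trivial b0 hb1 X hx2
    have h2 : (1 : ℝ) / 2 ≤ B ^ (-θ + δ) := by
      calc (1 : ℝ) / 2 = 2 ^ (-1 : ℝ) := by rw [Real.rpow_neg_one]; norm_num
        _ ≤ B ^ (-1 : ℝ) := by
          rw [Real.rpow_neg_one, Real.rpow_neg_one]
          exact inv_anti₀ hB0 hB.le
        _ ≤ B ^ (-θ + δ) := Real.rpow_le_rpow_of_exponent_le hB1 (by linarith)
    have h3 : 0 ≤ ((K + 1 : ℕ) : ℝ) ^ Fintype.card ι * (C * Real.exp c') := by positivity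
    have h4 : 0 < B ^ (-θ + δ) := Real.rpow_pos_of_pos hB0 _
    calc (X.card : ℝ) ≤ 5 ^ n * ∏ i, b0 i := h1
      _ = (2 * 5 ^ n) * ((∏ i, b0 i) * (1 / 2)) := by ring
      _ ≤ (2 * 5 ^ n) * ((∏ i, b0 i) * B ^ (-θ + δ)) := by
        apply mul_le_mul_of_nonneg_left _ (by positivity)
        exact mul_le_mul_of_nonneg_left h2 hprod.le
      _ ≤ _ := by
        apply mul_le_mul_of_nonneg_right _ (by positivity)
        linarith
  push Not at hB
  have hL : 0 < Real.log B := Real.log_pos (by linarith)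
  -- the exponents
  let t : (Fin n → ℤ) → ι → ℝ := fun x i => match i.2 with
    | none => Real.log (c * (∏ l, b0 l ^ a i.1 l) /
        |((MvPolynomial.eval x (F i.1) : ℤ) : ℝ)|) / Real.log B
    | some p => (padicValInt p.1 (MvPolynomial.eval x (F i.1)) : ℝ) * Real.log p.1 / Real.log B
  have ht0 : ∀ x ∈ X, ∀ i, 0 ≤ t x i := by
    intro x hx i
    obtain ⟨hprim, hne, _⟩ := hX x hx
    obtain ⟨j, o⟩ := i
    cases o with
    | none =>
      apply div_nonneg _ hL.le
      apply Real.log_nonneg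
      have h1 : (0 : ℝ) < |((MvPolynomial.eval x (F j) : ℤ) : ℝ)| :=
        abs_pos.mpr (by exact_mod_cast hne j)
      rw [le_div_iff₀ h1, one_mul]
      exact hcb b0 x hb0T (hx2 x hx) j
    | some p =>
      apply div_nonneg _ hL.le
      apply mul_nonneg (by positivity)
      apply Real.log_nonneg
      exact_mod_cast (hSp p.1 p.2).one_le
  have htsum : ∀ x ∈ X, θ - c' / Real.log B ≤ ∑ i, t x i := by
    intro x hx
    obtain ⟨hprim, hne, b, hsz, hbb, hprox⟩ := hX x hx
    have h0 : 0 ≤ ∑ i, t x i := Finset.sum_nonneg fun i _ => ht0 x hx i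
    have h1 : prox F a S b x ≤ (∑ i, t x i) * Real.log B + A := by
      rw [Fintype.sum_prod_type, Finset.sum_mul, hA, ← Finset.sum_add_distrib]
      unfold prox
      apply Finset.sum_le_sum
      intro j _
      rw [Fintype.sum_option, add_mul]
      have h1 : (0 : ℝ) < |((MvPolynomial.eval x (F j) : ℤ) : ℝ)| :=
        abs_pos.mpr (by exact_mod_cast hne j)
      have e1 : Real.log ((∏ i, b i ^ a j i) / |((MvPolynomial.eval x (F j) : ℤ) : ℝ)|) ≤
          t x (j, none) * Real.log B + ((∑ i, (a j i).natAbs : ℕ) : ℝ) * Real.log 2 := by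
        show _ ≤ Real.log (c * (∏ l, b0 l ^ a j l) /
          |((MvPolynomial.eval x (F j) : ℤ) : ℝ)|) / Real.log B * Real.log B + _
        rw [div_mul_cancel₀ _ hL.ne']
        have h2 := prod_compare (a j) b b0 hb0 hbb
        have h3 : 0 < ∏ l, b0 l ^ a j l := Finset.prod_pos fun i _ => zpow_pos (hb0 i) _
        have h4 : 0 < ∏ l, b l ^ a j l := Finset.prod_pos fun i _ => zpow_pos (hsz.1.1 i) _
        rw [← Real.log_pow, ← Real.log_mul (by positivity) (by positivity)]
        apply Real.log_le_log (by positivity)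
        rw [div_mul_eq_mul_div]
        apply div_le_div_of_nonneg_right _ h1.le
        calc ∏ i, b i ^ a j i ≤ 2 ^ (∑ i, (a j i).natAbs) * ∏ i, b0 i ^ a j i := h2
          _ = 1 * (∏ i, b0 i ^ a j i) * 2 ^ (∑ i, (a j i).natAbs) := by ring
          _ ≤ c * (∏ i, b0 i ^ a j i) * 2 ^ (∑ i, (a j i).natAbs) := by gcongr
      have e2 : ∑ p ∈ S, (padicValInt p (MvPolynomial.eval x (F j)) : ℝ) * Real.log p ≤
          (∑ p, t x (j, some p)) * Real.log B := by
        rw [← Finset.sum_coe_sort S, Finset.sum_mul]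
        apply le_of_eq
        refine Finset.sum_congr rfl fun p _ => ?_
        show _ = (padicValInt p.1 (MvPolynomial.eval x (F j)) : ℝ) * Real.log p.1 /
          Real.log B * Real.log B
        rw [div_mul_cancel₀ _ hL.ne']
      linarith
    have h2 : (∑ i, κ i) * (Real.log B - Real.log 2) ≤ ∑ i, κ i * Real.log (b i) := by
      rw [Finset.sum_mul]
      apply Finset.sum_le_sum
      intro i _
      apply mul_le_mul_of_nonneg_left _ (hκ i)
      rw [← Real.log_div hB0.ne' (by norm_num)]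
      apply Real.log_le_log (by positivity)
      have := (hbb i).1
      have := hBb i
      linarith
    have h3 : (∑ i, κ i) * (Real.log B - Real.log 2) + c0 ≤ (∑ i, t x i) * Real.log B + A := by
      linarith
    have h4 : θ ≤ ∑ i, κ i := by
      rw [hθ]
      exact min_le_left _ _
    rw [sub_le_iff_le_add, ← sub_le_iff_le_add', ← mul_le_mul_iff_left₀ hL, sub_mul,
      div_mul_cancel₀ _ hL.ne']
    have h5 : θ * Real.log B ≤ (∑ i, κ i) * Real.log B := mul_le_mul_of_nonneg_right h4 hL.le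
    have h6 : -c0 ≤ |c0| := neg_le_abs c0
    rw [hc']
    linarith
  -- the discretised exponents
  have hk : ∀ x ∈ X, ∃ k : ι → ℕ, (∀ i, k i ≤ K) ∧ ∑ i, k i ≤ K ∧ (∀ i, (k i : ℝ) / K ≤ t x i) ∧
      θ - c' / Real.log B - δ ≤ ((∑ i, k i : ℕ) : ℝ) / K := by
    intro x hx
    have ht := ht0 x hx
    have hts := htsum x hx
    obtain ⟨k, hk1, hk2⟩ := exists_lower' K (fun i => min K ⌊(K : ℝ) * t x i⌋₊)
    refine ⟨k, fun i => (hk1 i).trans (min_le_left _ _), by rw [hk2]; exact min_le_left _ _,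
      ?_, ?_⟩
    · intro i
      rw [div_le_iff₀ hK0]
      have h1 : (k i : ℝ) ≤ (⌊(K : ℝ) * t x i⌋₊ : ℝ) := by
        exact_mod_cast (hk1 i).trans (min_le_right _ _)
      have h2 := Nat.floor_le (mul_nonneg hK0.le (ht i))
      linarith
    · rw [hk2]
      by_cases hbig : K ≤ ∑ i, min K ⌊(K : ℝ) * t x i⌋₊
      · rw [min_eq_left hbig, div_self hK0.ne']
        have : 0 ≤ c' / Real.log B := by positivity
        linarith
      · rw [min_eq_right (by omega)]
        push Not at hbig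
        have h1 : ∀ i, min K ⌊(K : ℝ) * t x i⌋₊ = ⌊(K : ℝ) * t x i⌋₊ := by
          intro i
          apply min_eq_right
          by_contra hlt
          push Not at hlt
          have h2 : K ≤ ∑ i, min K ⌊(K : ℝ) * t x i⌋₊ := by
            calc K = min K ⌊(K : ℝ) * t x i⌋₊ := (min_eq_left hlt.le).symm
              _ ≤ _ := Finset.single_le_sum (f := fun i => min K ⌊(K : ℝ) * t x i⌋₊)
                (fun _ _ => Nat.zero_le _) (Finset.mem_univ i)
          omega
        rw [Finset.sum_congr rfl fun i _ => h1 i, le_div_iff₀ hK0]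
        push_cast
        have h2 : ∑ i, ((K : ℝ) * t x i - 1) ≤ ∑ i, (⌊(K : ℝ) * t x i⌋₊ : ℝ) :=
          Finset.sum_le_sum fun i _ => by
            have := Nat.lt_floor_add_one ((K : ℝ) * t x i)
            linarith
        rw [Finset.sum_sub_distrib, ← Finset.mul_sum] at h2
        simp only [Finset.sum_const, Finset.card_univ, nsmul_eq_mul, mul_one] at h2
        have h3 : (Fintype.card ι : ℝ) ≤ δ * K := by
          rwa [div_le_iff₀ hK0] at hmK
        have h4 : (θ - c' / Real.log B) * K ≤ (∑ i, t x i) * K :=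
          mul_le_mul_of_nonneg_right hts hK0.le
        nlinarith
  choose! k hk1 hk2 hk3 hk4 using hk
  -- count
  have hcard : (X.card : ℝ) ≤ ∑ b ∈ Fintype.piFinset (fun _ : ι => Finset.range (K + 1)),
      (((X.filter (fun x => k x = b)).card : ℕ) : ℝ) := by
    have h1 := Finset.card_eq_sum_card_fiberwise (f := k) (s := X)
      (t := Fintype.piFinset (fun _ : ι => Finset.range (K + 1))) (by
        intro x hx
        simp only [Finset.mem_coe, Fintype.mem_piFinset, Finset.mem_range]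
        intro i
        have := hk1 x hx i
        omega)
    rw [h1]
    push_cast
    exact le_rfl
  have hfib : ∀ b ∈ Fintype.piFinset (fun _ : ι => Finset.range (K + 1)),
      (((X.filter (fun x => k x = b)).card : ℕ) : ℝ) ≤
        C * Real.exp c' * ((∏ i, b0 i) * B ^ (-θ + δ)) := by
    intro b _
    rcases (X.filter (fun x => k x = b)).eq_empty_or_nonempty with he | ⟨x0, hx0⟩
    · rw [he, Finset.card_empty, Nat.cast_zero]
      positivity
    have hx0X := (Finset.mem_filter.mp hx0).1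
    have hkb := (Finset.mem_filter.mp hx0).2
    have hsum : ∑ j, (b (j, none) + ∑ p, b (j, some p)) = ∑ i, b i := by
      rw [Fintype.sum_prod_type]
      refine Finset.sum_congr rfl fun j _ => by rw [Fintype.sum_option]
    have h1 := hb b0 B K (fun j => b (j, none)) (fun j p => b (j, some p)) hb0T hB1 hBb hK1
      (by rw [hsum, ← hkb]; exact hk2 x0 hx0X) (X.filter (fun x => k x = b)) (by
        intro x hx
        obtain ⟨hxX, hkx⟩ := Finset.mem_filter.mp hx
        obtain ⟨hprim, hne, bx, ⟨_, s, hsS, hs⟩, hbb, hprox⟩ := hX x hxX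
        refine ⟨hprim, hx2 x hxX, ⟨s, hsS, fun i hi => ?_⟩, hne, ?_, ?_⟩
        · rw [(hs i).2 hi]
          exact (hbb i).1
        · intro j
          have h2 := hk3 x hxX (j, none)
          rw [hkx] at h2
          have h3 : (b (j, none) : ℝ) / K ≤
            Real.log (c * (∏ l, b0 l ^ a j l) /
              |((MvPolynomial.eval x (F j) : ℤ) : ℝ)|) / Real.log B := h2
          have h4 : (0 : ℝ) < |((MvPolynomial.eval x (F j) : ℤ) : ℝ)| :=
            abs_pos.mpr (by exact_mod_cast hne j)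
          have h8 : 0 < ∏ l, b0 l ^ a j l := Finset.prod_pos fun i _ => zpow_pos (hb0 i) _
          rw [le_div_iff₀ hL] at h3
          have h5 := Real.exp_le_exp.mpr h3
          rw [Real.exp_log (by positivity), le_div_iff₀ h4] at h5
          have h6 : B ^ (-((b (j, none) : ℝ) / K)) =
              (Real.exp ((b (j, none) : ℝ) / K * Real.log B))⁻¹ := by
            rw [Real.rpow_neg hB0.le, Real.rpow_def_of_pos hB0, mul_comm (Real.log B)]
          rw [h6]
          have h7 : 0 < Real.exp ((b (j, none) : ℝ) / K * Real.log B) := Real.exp_pos _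
          calc |((MvPolynomial.eval x (F j) : ℤ) : ℝ)| =
                (Real.exp ((b (j, none) : ℝ) / K * Real.log B))⁻¹ *
                  (Real.exp ((b (j, none) : ℝ) / K * Real.log B) *
                    |((MvPolynomial.eval x (F j) : ℤ) : ℝ)|) := by
                  field_simp
            _ ≤ (Real.exp ((b (j, none) : ℝ) / K * Real.log B))⁻¹ *
                  (c * ∏ l, b0 l ^ a j l) :=
              mul_le_mul_of_nonneg_left h5 (by positivity)
            _ = _ := by ring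
        · intro p j
          have h2 := hk3 x hxX (j, some p)
          rw [hkx] at h2
          have h3 : (b (j, some p) : ℝ) / K ≤
            (padicValInt p.1 (MvPolynomial.eval x (F j)) : ℝ) * Real.log p.1 / Real.log B := h2
          rw [le_div_iff₀ hL] at h3
          have h5 := Real.exp_le_exp.mpr h3
          have hp0 : (0 : ℝ) < p.1 := by exact_mod_cast (hSp p.1 p.2).pos
          rw [Real.rpow_def_of_pos hB0, mul_comm (Real.log B)]
          refine h5.trans (le_of_eq ?_)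
          rw [Real.exp_nat_mul, Real.exp_log hp0])
    refine h1.trans ?_
    rw [hsum, mul_assoc]
    apply mul_le_mul_of_nonneg_left _ hC
    have h2 := hk4 x0 hx0X
    rw [hkb] at h2
    have h3 : Real.exp c' = B ^ (c' / Real.log B) := by
      rw [Real.rpow_def_of_pos hB0]
      congr 1
      field_simp
    rw [h3, mul_left_comm]
    apply mul_le_mul_of_nonneg_left _ hprod.le
    rw [← Real.rpow_add hB0]
    apply Real.rpow_le_rpow_of_exponent_le hB1
    linarith
  have h5n : 0 ≤ (2 * 5 ^ n : ℝ) * ((∏ i, b0 i) * B ^ (-θ + δ)) := by positivity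
  refine hcard.trans ((Finset.sum_le_sum hfib).trans ?_)
  rw [Finset.sum_const, Fintype.card_piFinset]
  simp only [Finset.card_range, Finset.prod_const, Finset.card_univ, nsmul_eq_mul]
  push_cast at h5n ⊢
  rw [add_mul]
  nlinarith

end

end Pool.Agent.K1H85.TV
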